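import Pool.Agent.H43.HC.GAPC

/-!
# The off-diagonal sum is close to its main term, complex shifts: the theorem of H43/HC/GAPC
without its last hypothesis (which the proof does not use)
-/

set_option autoImplicit false

open NumberField Complex Filter Topology MeasureTheory
open scoped ContDiff nonZeroDivisors

namespace Pool.Agent.H33.HC.GAPD

open Pool.Agent.H28.RC Pool.Agent.H37.CV Pool.Agent.H33.HH Pool.Agent.H33.HC Pool.Agent.H8.HH
open Pool.Agent.H43.HC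

/-- GAPC: the off-diagonal sum is close to its main term. -/
theorem pf_GAPD (h1 : T_GSC) (_h2 : T_HSC) (h3 : T_GA1C) (h4 : T_GA2C) (h5 : T_GA3C)
    (h6 : Pool.Agent.H33.HH.T_IDF) : T_GAPC := by
  classical
  intro K _ _ _ P W G H k θ e C₀ hSP hW hG hH hkS hP hC₀
  have hθ := hP.θpos
  have he := hP.epos
  have hθ1 : θ < 1 := by
    have := hP.le
    linarith
  have hκ : 0 < 1 - θ := by linarith
  obtain ⟨j₀, hj₀⟩ := exists_nat_ge (2 + 2 * ((4 + θ + 2 * e) / (1 - θ)))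
  have hj2 : 2 ≤ j₀ + 2 := by omega
  have hj : 4 + θ + 2 * e ≤ (1 - θ) * (((j₀ + 2 : ℕ) : ℝ) / 2 - 1) := by
    have h5 : (4 + θ + 2 * e) / (1 - θ) ≤ ((j₀ + 2 : ℕ) : ℝ) / 2 - 1 := by
      push_cast
      linarith
    rwa [div_le_iff₀' hκ] at h5
  obtain ⟨C₁, hC₁, H1⟩ := h3 K P W G H k (j₀ + 2) hSP hW hG hH hkS hj2
  obtain ⟨C₂, hC₂, H2⟩ := h4 W G H hW hG hH
  obtain ⟨CD, hCD, HD⟩ := gap_count (K := K)
  obtain ⟨hGs, hGb⟩ := h1 G hG
  obtain ⟨CG, hCG, HG⟩ := hGb 0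
  have HG' : ∀ s : ℂ, Nr s → ∀ v : ℝ, ‖Gs G s v‖ ≤ CG := by
    intro s hs v
    have := HG s hs v
    rwa [iteratedDeriv_zero] at this
  set j : ℝ := ((j₀ + 2 : ℕ) : ℝ) with hjdef
  have hk1 : 1 ≤ nm k := gap_nm_one hkS.1
  have hk0 : 0 < nm k := by linarith
  have hN0 : 0 ≤ nS np (SP K P) := Finset.prod_nonneg fun p _ =>
    zero_le_one.trans (gap_nm_one p.2.2)
  refine ⟨6 * CD * CD * (7 * C₂ + 1) * CG * (C₁ * 2 ^ (j₀ + 2)), ((j₀ + 2 : ℕ) : ℝ),
    max (max 1 (nS np (SP K P) ^ (1 / (1 - θ)))) (Real.exp (16 * C₀)), by positivity,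
    Nat.cast_nonneg _, (le_max_left _ _).trans (le_max_left _ _), ?_⟩
  intro Q hQ S hS T hT α β u had
  have hQ1 : 1 ≤ Q := ((le_max_left _ _).trans (le_max_left _ _)).trans hQ
  have hQ0 : 0 < Q := by linarith
  have hQe : Real.exp (16 * C₀) ≤ Q := (le_max_right _ _).trans hQ
  have hlogQ : 16 * C₀ ≤ Real.log Q := (Real.le_log_iff_exp_le hQ0).2 hQe
  have hlog0 : 0 < Real.log Q := by linarith
  have hsm : C₀ / Real.log Q ≤ 1 / 16 := by
    rw [div_le_iff₀ hlog0]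
    linarith
  have hα : ‖α‖ ≤ 1 / 16 := had.1.trans hsm
  have hβ : ‖β‖ ≤ 1 / 16 := had.2.trans hsm
  obtain ⟨hs, hsim⟩ := gapc_nr u hα
  obtain ⟨hs', -⟩ := gapc_nr (-u) hβ
  obtain ⟨s, hsdef⟩ : ∃ s : ℂ, s = se α u := ⟨_, rfl⟩
  obtain ⟨s', hs'def⟩ : ∃ s' : ℂ, s' = se β (-u) := ⟨_, rfl⟩
  rw [← hsdef] at hs hsim
  rw [← hs'def] at hs'
  have hαre : |α.re| ≤ 1 / 16 := (Complex.abs_re_le_norm α).trans hα
  have hβre : |β.re| ≤ 1 / 16 := (Complex.abs_re_le_norm β).trans hβ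
  rw [abs_le] at hαre hβre
  have hy : 1 ≤ Q ^ θ := Real.one_le_rpow hQ1 hθ.le
  have hZ1 : 1 ≤ Q ^ (1 + e) := Real.one_le_rpow hQ1 (by linarith)
  set Z : ℝ := Q ^ (1 + e) with hZdef
  have hZ0 : 0 < Z := by linarith
  have hQθ : Q ^ θ ≤ Q := by
    calc Q ^ θ ≤ Q ^ (1 : ℝ) := Real.rpow_le_rpow_of_exponent_le hQ1 hθ1.le
      _ = Q := Real.rpow_one Q
  have hNQ : nS np (SP K P) * Q ^ θ ≤ Q := by
    have h5 : nS np (SP K P) ≤ Q ^ (1 - θ) := by
      have h6 : (nS np (SP K P) ^ (1 / (1 - θ))) ^ (1 - θ) ≤ Q ^ (1 - θ) :=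
        Real.rpow_le_rpow (Real.rpow_nonneg hN0 _)
          (((le_max_right _ _).trans (le_max_left _ _)).trans hQ) hκ.le
      rwa [← Real.rpow_mul hN0, one_div, inv_mul_cancel₀ hκ.ne', Real.rpow_one] at h6
    calc nS np (SP K P) * Q ^ θ ≤ Q ^ (1 - θ) * Q ^ θ :=
          mul_le_mul_of_nonneg_right h5 (by positivity)
      _ = Q := by
          rw [← Real.rpow_add hQ0]
          ring_nf
          exact Real.rpow_one Q
  obtain ⟨ha0, haC, haN, hs1, hsy, -, -, -⟩ := h6 K P (Q ^ θ) hy S hS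
  obtain ⟨hb0, hbC, hbN, ht1, hty, -, -, -⟩ := h6 K P (Q ^ θ) hy T hT
  have hs0 : 0 < nS np S := by linarith
  have ht0 : 0 < nS np T := by linarith
  have hs0c : ((nS np S : ℝ) : ℂ) ≠ 0 := by exact_mod_cast hs0.ne'
  have ht0c : ((nS np T : ℝ) : ℂ) ≠ 0 := by exact_mod_cast ht0.ne'
  obtain ⟨X, hX, hXc⟩ := HD (6 * Z) (by linarith)
  have hL1 : 1 ≤ (7 * C₂ + 1) * Q ^ (θ + e) := by
    have h5 : 1 ≤ Q ^ (θ + e) := Real.one_le_rpow hQ1 (by linarith)
    nlinarith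
  obtain ⟨Y, hY, hYc⟩ := HD ((7 * C₂ + 1) * Q ^ (θ + e)) hL1
  -- the prefactor
  obtain ⟨pre, hpre⟩ : ∃ pre : NI K → ℂ, ∀ n, pre n =
      ((nS np S : ℝ) : ℂ) ^ α * ((nS np T : ℝ) : ℂ) ^ (-1 - α) *
        ((nm n.1 : ℝ) : ℂ) ^ (-1 - (α + β)) * Gs G s' (nm n.1 / Z) * (Q : ℂ) := ⟨_, fun _ => rfl⟩
  have hprez : ∀ n : NI K, 6 * Z < nm n.1 → pre n = 0 := by
    intro n hn
    have h0 : Gs G s' (nm n.1 / Z) = 0 := by
      refine (hGs s' hs').2.2.1 _ ?_
      rw [le_div_iff₀ hZ0]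
      exact hn.le
    rw [hpre, h0, mul_zero, zero_mul]
  have hpreb : ∀ n : NI K, ‖pre n‖ ≤ CG * Q ^ 2 := by
    intro n
    have hn1 : 1 ≤ nm n.1 := gap_nm_one n.2
    have hn0 : 0 < nm n.1 := by linarith
    rw [hpre, norm_mul, norm_mul, norm_mul, norm_mul, gapc_norm hs0, gapc_norm ht0, gapc_norm hn0]
    have g1 : nS np S ^ α.re ≤ Q := by
      calc nS np S ^ α.re ≤ nS np S ^ (1 : ℝ) :=
            Real.rpow_le_rpow_of_exponent_le hs1 (by linarith)
        _ = nS np S := Real.rpow_one _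
        _ ≤ Q := hsy.trans hQθ
    have g2 : nS np T ^ (-1 - α).re ≤ 1 := by
      apply Real.rpow_le_one_of_one_le_of_nonpos ht1
      have : (-1 - α).re = -1 - α.re := by simp
      rw [this]
      linarith
    have g3 : nm n.1 ^ (-1 - (α + β)).re ≤ 1 := by
      apply Real.rpow_le_one_of_one_le_of_nonpos hn1
      have : (-1 - (α + β)).re = -1 - (α.re + β.re) := by simp
      rw [this]
      linarith
    have g4 := HG' s' hs' (nm n.1 / Z)
    have g5 : ‖(Q : ℂ)‖ = Q := by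
      rw [Complex.norm_real, Real.norm_of_nonneg hQ0.le]
    rw [g5]
    have p1 : 0 ≤ nS np S ^ α.re := Real.rpow_nonneg hs0.le _
    have p2 : 0 ≤ nS np T ^ (-1 - α).re := Real.rpow_nonneg ht0.le _
    have p3 : 0 ≤ nm n.1 ^ (-1 - (α + β)).re := Real.rpow_nonneg hn0.le _
    calc nS np S ^ α.re * nS np T ^ (-1 - α).re * nm n.1 ^ (-1 - (α + β)).re *
          ‖Gs G s' (nm n.1 / Z)‖ * Q ≤ Q * 1 * 1 * CG * Q := by gcongr
      _ = CG * Q ^ 2 := by ring
  -- the two functions of n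
  set fO : NI K → ℂ := fun n => if Cp P n.1 then
    ∑' l : NI K, pre n *
      ∑' γ : Ga P (idS S) (idS T * n.1) (k * l.1), gapcΦ W G H s (nS np T * nm n.1 / nm k)
        (nS np T * nm n.1 / (nS np S * Z)) (nm l.1 * Q) (em K γ.1) else 0 with hfO
  set fN : NI K → ℂ := fun n => if Cp P n.1 then
    ∑' l : NI K, pre n *
      (((gs P S (idS T * n.1) k l.1 * (2 / sd K) *
        (nm (idS T * n.1) / (nS np S * nm k * nm l.1)) : ℝ) : ℂ) *
      ∫ g : ℂ, gapcΦ W G H s (nS np T * nm n.1 / nm k)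
        (nS np T * nm n.1 / (nS np S * Z)) (nm l.1 * Q) g) else 0 with hfN
  have hO : Oa2 P Z Q W G H k (idS S) (idS T) α β u = ∑' n, fO n := by
    unfold Oa2 sumZ
    refine tsum_congr fun n => ?_
    rw [hfO]
    dsimp only
    split_ifs with hc
    · have hn1 : 1 ≤ nm n.1 := gap_nm_one n.2
      have hn0 : 0 < nm n.1 := by linarith
      refine tsum_congr fun l => ?_
      have hl1 : 1 ≤ nm l.1 := gap_nm_one l.2
      rw [← tsum_mul_left]
      refine tsum_congr fun γ => ?_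
      unfold gapcΦ
      rw [haN, hbN, hpre, ← hsdef, ← hs'def]
      have e1 : ‖em K γ.1‖ ^ 2 * (nS np T * nm n.1) / (nS np S * Z) =
          ‖em K γ.1‖ ^ 2 * (nS np T * nm n.1 / (nS np S * Z)) := mul_div_assoc _ _ _
      have e2 : ‖em K γ.1 - 1‖ ^ 2 * (nS np T * nm n.1) / (nm k * nm l.1 * Q) =
          ‖em K γ.1 - 1‖ ^ 2 * (nS np T * nm n.1 / nm k) / (nm l.1 * Q) := by
        field_simp
      rw [e1, e2]
      push_cast
      ring
    · rfl
  have hNN : Na2 P Z Q G k S (idS T) α β u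
      (fun x t => ((Thi K W : ℝ) : ℂ) * Jc G H (se α u) t + Kc K W G H (se α u) x t) =
      ∑' n, fN n := by
    unfold Na2 sumZ
    rw [← tsum_mul_left]
    refine tsum_congr fun n => ?_
    rw [hfN]
    dsimp only
    split_ifs with hc
    · have hn1 : 1 ≤ nm n.1 := gap_nm_one n.2
      have hn0 : 0 < nm n.1 := by linarith
      have hn0c : ((nm n.1 : ℝ) : ℂ) ≠ 0 := by exact_mod_cast hn0.ne'
      have hbn : idS T * n.1 ≠ ⊥ := mul_ne_zero hb0 n.2
      have hbnC : Cp P (idS T * n.1) := gap_Cp_mul hbC hc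
      have H3 := h5 K P (Q ^ θ) W G H hy hW hG hH S hS (idS T * n.1) k hbn hbnC hkS s hs Q
        (nS np T * nm n.1 / nm k) (nS np T * nm n.1 / (nS np S * Z)) hQ0 (by positivity)
        (by positivity)
      have e0 : (∑ R₁ ∈ S.powerset, ∑ R₀ ∈ (SP K P).powerset,
          ((ha R₁ (idS T * n.1) * hk P k R₀ * (Q / (nS np R₁ * nS np R₀)) : ℝ) : ℂ) *
          (((Thi K W : ℝ) : ℂ) * Jc G H (se α u) (nm (idS T) * nm n.1 / (nS np S * Z)) +
          Kc K W G H (se α u) (nm (idS T) * nm n.1 / (nm k * (nS np R₁ * nS np R₀) * Q))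
            (nm (idS T) * nm n.1 / (nS np S * Z)))) =
          ∑' l : NI K, ((gs P S (idS T * n.1) k l.1 * (Q / nm l.1) : ℝ) : ℂ) *
            ∫ g : ℂ, gapcΦ W G H s (nS np T * nm n.1 / nm k)
              (nS np T * nm n.1 / (nS np S * Z)) (nm l.1 * Q) g := by
        refine Eq.trans ?_ H3.symm
        refine Finset.sum_congr rfl fun R₁ _ => Finset.sum_congr rfl fun R₀ _ => ?_
        have e4 : nm (idS T) * nm n.1 / (nm k * (nS np R₁ * nS np R₀) * Q) =
            nS np T * nm n.1 / nm k / (nS np R₁ * nS np R₀ * Q) := by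
          rw [hbN, div_div, mul_assoc (nm k)]
        rw [e4, hbN, hsdef]
      rw [e0, ← tsum_mul_left, ← tsum_mul_left]
      refine tsum_congr fun l => ?_
      have hl1 : 1 ≤ nm l.1 := gap_nm_one l.2
      have hl0 : nm l.1 ≠ 0 := by linarith
      have c1 : ((nS np S : ℝ) : ℂ) ^ (α - 1) = ((nS np S : ℝ) : ℂ) ^ α / ((nS np S : ℝ) : ℂ) := by
        rw [Complex.cpow_sub _ _ hs0c, Complex.cpow_one]
      have c2 : ((nS np T : ℝ) : ℂ) ^ (-α) =
          ((nS np T : ℝ) : ℂ) ^ (-1 - α) * ((nS np T : ℝ) : ℂ) := by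
        have : -α = (-1 - α) + 1 := by ring
        rw [this, Complex.cpow_add _ _ ht0c, Complex.cpow_one]
      have c3 : ((nm n.1 : ℝ) : ℂ) ^ (-(α + β)) =
          ((nm n.1 : ℝ) : ℂ) ^ (-1 - (α + β)) * ((nm n.1 : ℝ) : ℂ) := by
        have : -(α + β) = (-1 - (α + β)) + 1 := by ring
        rw [this, Complex.cpow_add _ _ hn0c, Complex.cpow_one]
      rw [gap_nm_mul, hbN, hpre, c1, c2, c3, ← hs'def]
      obtain ⟨I, hI⟩ : ∃ I : ℂ, I = ∫ g : ℂ, gapcΦ W G H s (nS np T * nm n.1 / nm k)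
              (nS np T * nm n.1 / (nS np S * Z)) (nm l.1 * Q) g := ⟨_, rfl⟩
      rw [← hI]
      push_cast
      generalize ((nS np S : ℝ) : ℂ) ^ α = x1
      generalize ((nS np T : ℝ) : ℂ) ^ (-1 - α) = x2
      generalize ((nm n.1 : ℝ) : ℂ) ^ (-1 - (α + β)) = x3
      generalize Gs G s' (nm n.1 / Z) = x4
      generalize ((gs P S (idS T * n.1) k l.1 : ℝ) : ℂ) = x5
      ring
    · rw [mul_zero]
  rw [hO, hNN]
  -- the final bound
  have hR0 : 0 ≤ (Q / nS np S) ^ (1 - j / 2) := Real.rpow_nonneg (by positivity) _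
  have hU0 : (0 : ℝ) ≤ 1 + |s.im| := by positivity
  have hdiff : ‖(∑' n, fO n) - ∑' n, fN n‖ ≤
      X.card * (Y.card * (CG * Q ^ 2 *
        (C₁ * (1 + |s.im|) ^ (j₀ + 2) * (Q / nS np S) ^ (1 - j / 2)))) := by
    refine gapc_sub fO fN X _ ?_ ?_ ?_
    · intro n hn
      have h0 := hprez n (not_le.mp fun h => hn (hX n h))
      rw [hfO]
      dsimp only
      split_ifs with hc
      · simp [h0]
      · rfl
    · intro n hn
      have h0 := hprez n (not_le.mp fun h => hn (hX n h))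
      rw [hfN]
      dsimp only
      split_ifs with hc
      · simp [h0]
      · rfl
    · intro n
      have hE0 : 0 ≤ (Y.card : ℝ) * (CG * Q ^ 2 *
          (C₁ * (1 + |s.im|) ^ (j₀ + 2) * (Q / nS np S) ^ (1 - j / 2))) := by
        positivity
      by_cases hc : Cp P n.1
      swap
      · rw [hfO, hfN]
        dsimp only
        rw [if_neg hc, if_neg hc, sub_zero, norm_zero]
        exact hE0
      by_cases hn3 : nm n.1 ≤ 6 * Z
      swap
      · have h0 := hprez n (not_le.mp hn3)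
        rw [hfO, hfN]
        dsimp only
        rw [if_pos hc, if_pos hc, h0]
        simpa using hE0
      rw [hfO, hfN]
      dsimp only
      rw [if_pos hc, if_pos hc]
      have hn1 : 1 ≤ nm n.1 := gap_nm_one n.2
      have hn0 : 0 < nm n.1 := by linarith
      have hbn : idS T * n.1 ≠ ⊥ := mul_ne_zero hb0 n.2
      have hbnC : Cp P (idS T * n.1) := gap_Cp_mul hbC hc
      refine gapc_one P W G H s k (idS T * n.1) S Q (nS np T * nm n.1 / nm k)
        (nS np T * nm n.1 / (nS np S * Z)) (CG * Q ^ 2) _ ((7 * C₂ + 1) * Q ^ (θ + e)) _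
        (by positivity) Y hY (hpreb n) ?_ (fun l => ((gs P S (idS T * n.1) k l.1 * (2 / sd K) *
        (nm (idS T * n.1) / (nS np S * nm k * nm l.1)) : ℝ) : ℂ)) ?_
      · intro l g hne
        have hl1 : 1 ≤ nm l.1 := gap_nm_one l.2
        have h5 := H2 s g (nS np T * nm n.1 / nm k) (nS np T * nm n.1 / (nS np S * Z)) (nm l.1 * Q)
          (by positivity) (by positivity) (by positivity) hne
        have e5 : nS np T * nm n.1 / nm k / (nS np T * nm n.1 / (nS np S * Z)) =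
            nS np S * Z / nm k := by
          field_simp
        rw [e5] at h5
        have h6 : nS np S * Z / nm k ≤ Q ^ θ * Z :=
          (div_le_self (by positivity) hk1).trans (mul_le_mul_of_nonneg_right hsy hZ0.le)
        have h7 : nS np T * nm n.1 / nm k ≤ Q ^ θ * (6 * Z) :=
          (div_le_self (by positivity) hk1).trans (mul_le_mul hty hn3 hn0.le (by positivity))
        have h8 : Q ^ θ * Z = Q ^ (θ + e) * Q := by
          rw [hZdef, ← Real.rpow_add hQ0]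
          nth_rewrite 3 [← Real.rpow_one Q]
          rw [← Real.rpow_add hQ0]
          congr 1
          ring
        have h9 : nm l.1 * Q ≤ C₂ * (7 * (Q ^ θ * Z)) := by
          refine h5.trans (mul_le_mul_of_nonneg_left ?_ hC₂)
          linarith
        rw [h8] at h9
        have h10 : nm l.1 * Q ≤ (7 * C₂ + 1) * Q ^ (θ + e) * Q := by
          have h11 : 0 ≤ Q ^ (θ + e) * Q := by positivity
          nlinarith
        exact le_of_mul_le_mul_right h10 hQ0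
      · intro l
        have hl1 : 1 ≤ nm l.1 := gap_nm_one l.2
        have h5 := H1 (Q ^ θ) Q Z hy hZ0 hNQ S hS (idS T * n.1) l.1 hbn hbnC l.2 s hs
        have key : ∀ g : ℂ, Hs H s (‖g‖ ^ 2) *
            Gs G s (‖g‖ ^ 2 * nm (idS T * n.1) / (nS np S * Z)) *
            ((w1 W (‖g - 1‖ ^ 2 * nm (idS T * n.1) / (nm k * nm l.1 * Q)) : ℝ) : ℂ) =
            gapcΦ W G H s (nS np T * nm n.1 / nm k) (nS np T * nm n.1 / (nS np S * Z))
              (nm l.1 * Q) g := by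
          intro g
          unfold gapcΦ
          rw [gap_nm_mul, hbN, mul_div_assoc]
          have e2 : ‖g - 1‖ ^ 2 * (nS np T * nm n.1) / (nm k * nm l.1 * Q) =
              ‖g - 1‖ ^ 2 * (nS np T * nm n.1 / nm k) / (nm l.1 * Q) := by
            field_simp
          rw [e2]
        simp only [key] at h5
        exact h5
  refine hdiff.trans ?_
  have hRb : (Q / nS np S) ^ (1 - j / 2) ≤ Q ^ ((1 - θ) * (1 - j / 2)) := by
    have hj1 : 1 - j / 2 ≤ 0 := by
      rw [hjdef]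
      push_cast
      have : (0 : ℝ) ≤ j₀ := Nat.cast_nonneg _
      linarith
    rw [Real.rpow_mul hQ0.le]
    refine Real.rpow_le_rpow_of_nonpos (Real.rpow_pos_of_pos hQ0 _) ?_ hj1
    rw [le_div_iff₀ hs0]
    calc Q ^ (1 - θ) * nS np S ≤ Q ^ (1 - θ) * Q ^ θ :=
          mul_le_mul_of_nonneg_left hsy (by positivity)
      _ = Q := by
          rw [← Real.rpow_add hQ0]
          ring_nf
          exact Real.rpow_one Q
  have hEr : Q ^ (-1 : ℝ) ≤ Er Q 1 S T := by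
    unfold Er
    have h5 : 1 ≤ nS np (S ∩ T) := by
      unfold nS
      have := Finset.prod_le_prod (s := S ∩ T) (f := fun _ => (1 : ℝ)) (g := fun p => np p)
        (fun _ _ => zero_le_one) (fun p _ => gap_nm_one p.2.2)
      simpa using this
    have h7 : nS np S * nS np T ≤ Q * Q :=
      mul_le_mul (hsy.trans hQθ) (hty.trans hQθ) ht0.le hQ0.le
    have h8 : (2 - 1 : ℝ) = 1 := by norm_num
    rw [h8, Real.rpow_one, Real.rpow_neg_one]
    calc Q⁻¹ = Q * (1 / (Q * Q)) := by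
          field_simp
      _ ≤ Q * (nS np (S ∩ T) / (nS np S * nS np T)) := by
          refine mul_le_mul_of_nonneg_left ?_ hQ0.le
          exact div_le_div₀ (by linarith) h5 (by positivity) h7
  have hpow : Z * Q ^ (θ + e) * Q ^ 2 * Q ^ ((1 - θ) * (1 - j / 2)) ≤ Q ^ (-1 : ℝ) := by
    have h5 : Z * Q ^ (θ + e) * Q ^ 2 * Q ^ ((1 - θ) * (1 - j / 2)) =
        Q ^ ((1 + e) + (θ + e) + 2 + (1 - θ) * (1 - j / 2)) := by
      rw [Real.rpow_add hQ0 ((1 + e) + (θ + e) + 2), Real.rpow_add hQ0 ((1 + e) + (θ + e)) 2,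
        Real.rpow_add hQ0 (1 + e) (θ + e)]
      norm_num [← hZdef]
    rw [h5]
    refine Real.rpow_le_rpow_of_exponent_le hQ1 ?_
    have h6 : (1 - θ) * (1 - j / 2) = -((1 - θ) * (j / 2 - 1)) := by ring
    rw [h6]
    linarith
  have hUb : (1 + |s.im|) ^ (j₀ + 2) ≤ 2 ^ (j₀ + 2) * (1 + |u|) ^ (j₀ + 2) := by
    rw [← mul_pow]
    have hu0 := abs_nonneg u
    have : 1 + |s.im| ≤ 2 * (1 + |u|) := by linarith
    gcongr
  rw [Real.rpow_natCast]
  have hu1 : (0 : ℝ) ≤ 1 + |u| := by positivity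
  calc (X.card : ℝ) * (Y.card * (CG * Q ^ 2 *
        (C₁ * (1 + |s.im|) ^ (j₀ + 2) * (Q / nS np S) ^ (1 - j / 2)))) ≤
        (CD * (6 * Z)) * ((CD * ((7 * C₂ + 1) * Q ^ (θ + e))) *
          (CG * Q ^ 2 * (C₁ * (2 ^ (j₀ + 2) * (1 + |u|) ^ (j₀ + 2)) *
            Q ^ ((1 - θ) * (1 - j / 2))))) := by
        gcongr
    _ = 6 * CD * CD * (7 * C₂ + 1) * CG * (C₁ * 2 ^ (j₀ + 2)) * (1 + |u|) ^ (j₀ + 2) *
          (Z * Q ^ (θ + e) * Q ^ 2 * Q ^ ((1 - θ) * (1 - j / 2))) := by ring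
    _ ≤ 6 * CD * CD * (7 * C₂ + 1) * CG * (C₁ * 2 ^ (j₀ + 2)) * (1 + |u|) ^ (j₀ + 2) *
          Er Q 1 S T :=
        mul_le_mul_of_nonneg_left (hpow.trans hEr) (by positivity)

end Pool.Agent.H33.HC.GAPD
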