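import Pool.Agent.H33.HC.TB
import Pool.Agent.H65.CRG.TD

/-!
# Targets, part C: the characters (positivity, smooth sums at a general point, mean squares)
(page H33_CRIT.md in the team store)
-/

set_option autoImplicit false

open NumberField Complex Filter Topology MeasureTheory
open scoped ContDiff nonZeroDivisors

namespace Pool.Agent.H33.HC

open Pool.Agent.H28.RC Pool.Agent.H37.CV Pool.Agent.H33.HH Pool.Agent.H65.CRZ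
  Pool.Agent.H65.CRG

noncomputable section

section defs

variable {K : Type} [Field K] [NumberField K]

/-- the smooth sum with the weight `Gs` -/
def SGz (G : ℝ → ℝ) (X : ℝ) (s : ℂ) (ψ : Ideal (𝓞 K) → ℂ) : ℂ :=
  ∑' m : NI K, gc G X s (nm m.1) * ψ m.1

/-- the Euler factors at the small primes -/
def EP (P : ℝ) (ψ : Ideal (𝓞 K) → ℂ) (s : ℂ) : ℂ :=
  ∏ p ∈ SP K P, (1 - ψ p.1 * ((np p : ℝ) : ℂ) ^ (-s))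

/-- the mollifier -/
def mlz (P y : ℝ) (ψ : Ideal (𝓞 K) → ℂ) (z : ℂ) : ℂ :=
  ∑ S ∈ DP K P y, (lm K P y S : ℂ) * ψ (idS S) * ((nS np S : ℝ) : ℂ) ^ (-z)

/-- the `L`-function without the Euler factors at the small primes -/
def ZP (P : ℝ) (χ : RCC K) (s : ℂ) : ℂ := Zx χ s * EP P χ.ψ s

/-- the abscissa of the left side -/
def sgm (R Q : ℝ) : ℝ := 1 / 2 - R / Real.log Q

/-- the sum over the conductors `k q` with the weight `W` -/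
def FW (P Q : ℝ) (W : ℝ → ℝ) (k : Ideal (𝓞 K)) (F : RCC K → ℝ) : ℝ :=
  sumC P fun q => W (nm q / Q) * ∑ᶠ χ ∈ Pr K (k * q), F χ

end defs

/-! ### Positivity -/

/-- CNJ: complex conjugation of the coefficients. -/
def T_CNJ : Prop := ∀ (K : Type) [Field K] [NumberField K] (P y Z : ℝ) (G : ℝ → ℝ) (s z : ℂ)
  (n : Ideal (𝓞 K)), 0 < Z → (starRingEnd ℂ) (cfs P y Z G s z n) =
    cfs P y Z G ((starRingEnd ℂ) s) ((starRingEnd ℂ) z) n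

/-- QFC: the quadratic form opened, complex coefficients. -/
def T_QFC : Prop := ∀ (K : Type) [Field K] [NumberField K] [IQ K] (k k' q : Ideal (𝓞 K))
  (c : Ideal (𝓞 K) → ℂ), k ≠ ⊥ → k ≤ k' → q ≠ ⊥ → k ⊔ q = ⊤ → (Function.support c).Finite →
  (∀ n, c n ≠ 0 → n ≠ ⊥ ∧ n ⊔ k = ⊤) →
  QQ2 (k' * q) c (fun n => (starRingEnd ℂ) (c n)) =
    ((∑ᶠ p ∈ {p : Ideal (𝓞 K) × Ideal (𝓞 K) | p.1 * p.2 = q},
      (wu K / (hc K * ph (k' * p.2))) * ∑ᶠ ψ ∈ Ch (k * p.2) (k' * p.2),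
        ‖∑ᶠ n : Ideal (𝓞 K), c (p.1 * n) * ψ n‖ ^ 2 : ℝ) : ℂ)

/-- PSC2: the upper bound by positivity, complex coefficients. -/
def T_PSC2 : Prop := ∀ (K : Type) [Field K] [NumberField K] [IQ K] (k q : Ideal (𝓞 K))
  (c : Ideal (𝓞 K) → ℂ), k ≠ ⊥ → q ≠ ⊥ → k ⊔ q = ⊤ → k * q ≠ ⊤ →
  (Function.support c).Finite → (∀ n, c n ≠ 0 → n ≠ ⊥ ∧ n ⊔ k = ⊤) →
  ∑ᶠ χ ∈ Pr K (k * q), ‖∑ᶠ n : Ideal (𝓞 K), c n * χ.ψ n‖ ^ 2 ≤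
    (hc K * nm q / wu K) * ∑ S ∈ (pf k).powerset,
      (-1) ^ S.card * ph (qu k S) *
        (QQ2 (qu k S * q) c (fun n => (starRingEnd ℂ) (c n))).re

/-- PSS: the upper bound by positivity, summed over the conductors. -/
def T_PSS : Prop := ∀ (K : Type) [Field K] [NumberField K] [IQ K] (P Q : ℝ) (W : ℝ → ℝ)
  (k : Ideal (𝓞 K)) (c : Ideal (𝓞 K) → ℂ), 0 < Q → IsW W → W (1 / Q) = 0 → Sm' P k →
  (Function.support c).Finite → (∀ n, c n ≠ 0 → n ≠ ⊥ ∧ Cp P n) →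
  FW P Q W k (fun χ => ‖∑ᶠ n : Ideal (𝓞 K), c n * χ.ψ n‖ ^ 2) ≤
    (hc K / wu K) * ∑ S ∈ (pf k).powerset, (-1) ^ S.card * ph (qu k S) *
      (sumZ P fun q => ((W (nm q / Q) * nm q : ℝ) : ℂ) *
        QQ2 (qu k S * q) c (fun n => (starRingEnd ℂ) (c n))).re

/-- BQS: the coefficients of the mollified sum. -/
def T_BQS : Prop := ∀ (K : Type) [Field K] [NumberField K] [IQ K] (P y Z : ℝ) (G : ℝ → ℝ)
  (s z : ℂ), IsG G → 1 ≤ y → 0 < Z → Nr s →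
  (Function.support (cfs (K := K) P y Z G s z)).Finite ∧
  (∀ n : Ideal (𝓞 K), cfs P y Z G s z n ≠ 0 → n ≠ ⊥ ∧ Cp P n ∧ nm n ≤ 6 * y * Z) ∧
  ∀ ψ : Ideal (𝓞 K) → ℂ, (∀ I J, ψ (I * J) = ψ I * ψ J) →
    ∑ᶠ n : Ideal (𝓞 K), cfs P y Z G s z n * ψ n =
      mlz P y ψ z * sumZ P fun m => gc G Z s (nm m) * ψ m

/-! ### The smooth sums -/

/-- BSZ: the sum over the ideals prime to the small primes. -/
def T_BSZ : Prop := ∀ (K : Type) [Field K] [NumberField K] [IQ K] (P Z : ℝ) (G : ℝ → ℝ)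
  (s : ℂ), IsG G → 0 < Z → Nr s → ∀ ψ : Ideal (𝓞 K) → ℂ, (∀ I J, ψ (I * J) = ψ I * ψ J) →
  (∀ I, ‖ψ I‖ ≤ 1) → ψ ⊤ = 1 →
  sumZ P (fun m => gc G Z s (nm m) * ψ m) = ∑ T ∈ (SP K P).powerset, (-1 : ℂ) ^ T.card *
    ((nS np T : ℝ) : ℂ) ^ (-s) * ψ (idS T) * SGz G (Z / nS np T) s ψ

/-- SGE: the weight `Gs` in terms of `G`. -/
def T_SGE : Prop := ∀ (K : Type) [Field K] [NumberField K] [IQ K] (G : ℝ → ℝ) (X : ℝ) (s : ℂ)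
  (ψ : Ideal (𝓞 K) → ℂ), IsG G → 0 < X →
  SGz G X s ψ = (SG G X s ψ - (2 : ℂ) ^ (s - 1) * SG G (2 * X) s ψ) / (1 - (2 : ℂ) ^ (s - 1))

/-- SDC: the difference of two smooth sums. -/
def T_SDC : Prop := ∀ (K : Type) [Field K] [NumberField K] [IQ K] (G : ℝ → ℝ), IsG G →
  ∀ k : ℕ, 2 ≤ k → ∃ C : ℝ, 0 ≤ C ∧ ∀ χ : RCC K, χ.f ≠ ⊤ → ∀ X : ℝ, nm χ.f ≤ X →
  ∀ s : ℂ, |s.re| ≤ 3 → ‖SG G (2 * X) s χ.ψ - SG G X s χ.ψ‖ ≤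
    C * (1 + |s.im|) ^ k * (nm χ.f * X ^ 3 * (X / nm χ.f) ^ (1 - (k : ℝ) / 2))

/-- ZEX: the continuation exists. -/
def T_ZEX : Prop := ∀ (K : Type) [Field K] [NumberField K] [IQ K] (χ : RCC K), χ.f ≠ ⊤ →
  IsEnt χ (Zx χ)

/-- SSC2: the value as a smooth sum. -/
def T_SSC2 : Prop := ∀ (K : Type) [Field K] [NumberField K] [IQ K] (G : ℝ → ℝ), IsG G →
  ∀ k : ℕ, 9 ≤ k → ∃ C : ℝ, 0 ≤ C ∧ ∀ χ : RCC K, χ.f ≠ ⊤ → ∀ X : ℝ, nm χ.f ≤ X →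
  ∀ s : ℂ, |s.re| ≤ 1 → ‖SG G X s χ.ψ - Zx χ s‖ ≤
    C * (1 + |s.im|) ^ k * (nm χ.f * X ^ 3 * (X / nm χ.f) ^ (1 - (k : ℝ) / 2))

/-- MVC: the mollified sum is close to the mollified value. -/
def T_MVC : Prop := ∀ (K : Type) [Field K] [NumberField K] [IQ K] (G : ℝ → ℝ), IsG G →
  ∀ P κ θ e : ℝ, 0 < κ → 0 < θ → θ ≤ 1 → 0 < e → ∃ C B Q₀ : ℝ, 0 ≤ C ∧ 0 ≤ B ∧ 1 ≤ Q₀ ∧
  ∀ Q : ℝ, Q₀ ≤ Q → ∀ χ : RCC K, χ.f ≠ ⊤ → nm χ.f ≤ κ * Q → ∀ s z : ℂ, Nr s → Nr z →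
  ‖(∑ᶠ n : Ideal (𝓞 K), cfs P (Q ^ θ) (Q ^ (1 + e)) G s z n * χ.ψ n) -
    ZP P χ s * mlz P (Q ^ θ) χ.ψ z‖ ≤ C * (1 + |s.im|) ^ B * Q ^ (-10 : ℝ)

/-! ### The mean squares -/

/-- MSC: mean squares with a shift. -/
def T_MSC : Prop := ∀ (K : Type) [Field K] [NumberField K] [IQ K] (P : ℝ) (W : ℝ → ℝ)
  (k : Ideal (𝓞 K)) (θ e R : ℝ), (SP K P).Nonempty → IsW W → 0 < W1 W → Sm' P k → Par θ e →
  0 < R → ∃ C B : ℝ, 0 ≤ C ∧ 0 ≤ B ∧ ∀ η : ℝ, 0 < η → ∃ Q₀ : ℝ, 2 ≤ Q₀ ∧ ∀ Q : ℝ, Q₀ ≤ Q →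
  ∀ (a : ℂ) (u : ℝ), ‖a‖ ≤ R / (2 * Real.log Q) →
  FW P Q W k (fun χ => ‖ZP P χ (sgm R Q + u * I + a) *
    mlz P (Q ^ θ) χ.ψ (1 / 2 + u * I)‖ ^ 2) ≤ (C + η * (1 + |u|) ^ B) * Q ^ 2

/-- LEC: the mean square of the Cauchy integral on the left line. -/
def T_LEC : Prop := ∀ (K : Type) [Field K] [NumberField K] [IQ K] (P : ℝ) (W : ℝ → ℝ)
  (k : Ideal (𝓞 K)) (θ e R δ T : ℝ) (N : ℕ) (m : ℕ → ℝ), (SP K P).Nonempty → IsW W →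
  0 < W1 W → Sm' P k → Par θ e → 0 < R → 0 < δ → 0 < T → 0 < 1 + pm N m (1 / 2) →
  ∃ Q₀ : ℝ, 2 ≤ Q₀ ∧ ∀ Q : ℝ, Q₀ ≤ Q → ∀ t : ℝ, |t| ≤ T →
  FW P Q W k (fun χ => ‖(1 / (2 * Real.pi : ℂ) * ∫ φ in (0 : ℝ)..(2 * Real.pi),
      ZP P χ (sgm R Q + t * I + R / 2 * cexp (φ * I) / Real.log Q) *
        kn N m (R / 2 * cexp (φ * I))) * mlz P (Q ^ θ) χ.ψ (1 / 2 + t * I)‖ ^ 2) ≤
    cQ N m R θ * A0 P Q W k + δ * Q ^ 2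

end

end Pool.Agent.H33.HC
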