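import Pool.Agent.H33.HC.SH
import Pool.Agent.H33.HH.SEC

/-!
# The second moment with shifts: assembly (MP_347b49_nt), second part
-/

set_option autoImplicit false

open NumberField Complex Filter Topology MeasureTheory
open scoped ContDiff nonZeroDivisors

namespace Pool.Agent.H33.HC

open Pool.Agent.H28.RC Pool.Agent.H37.CV Pool.Agent.H33.HH Pool.Agent.H65.CRZ

noncomputable section

/-- the sum of the main terms -/
theorem sum_Mp {K : Type} [Field K] [NumberField K] (P Q θ : ℝ) (W H : ℝ → ℝ)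
    (k : Ideal (𝓞 K)) (α β : ℂ) (u : ℝ) :
    ∑ S ∈ DP K P (Q ^ θ), ∑ T ∈ DP K P (Q ^ θ),
      ((lm K P (Q ^ θ) S * lm K P (Q ^ θ) T : ℝ) : ℂ) * Mp P Q W H k α β u S T =
    ((W1 W * Q ^ 2 : ℝ) : ℂ) * ((rk K P : ℂ) * Zc K P (α + β) * V1 K P (Q ^ θ) α β -
      (rh K : ℂ) * ck P k (α + β) * ((nm k * Q : ℝ) : ℂ) ^ (-(α + β)) *
      ((Yc K P W H (se α u) (α + β) + Yc K P W H (se β (-u)) (α + β)) / 2) *
        V2 K P (Q ^ θ) α β) := by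
  unfold V1 V2 Mp
  simp only [Finset.mul_sum, mul_sub, Finset.sum_sub_distrib]
  congr 1
  · refine Finset.sum_congr rfl fun S _ => Finset.sum_congr rfl fun T _ => ?_
    ring
  · refine Finset.sum_congr rfl fun S _ => Finset.sum_congr rfl fun T _ => ?_
    ring

theorem pf_SH (hX : T_HEX) (hOPS : T_OPS) (hU : T_UNFC) (hGAP : T_GAPC) (hINF : T_INFC)
    (hRPT : T_RPTC) (hDAP : T_DAPC) (hDDS : T_DDS) (hCOM : T_COMC) (hI : T_IDF) (hERS : T_ERS)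
    (hZCB : T_ZCB) (hYCB : T_YCB) (hCKB : T_CKB) (hAR1 : T_AR1) (hAR2 : T_AR2)
    (hNRM : T_NRM) : T_SH := by
  intro K _ _ _ P W G k θ e c C₀ hP hW hW1 hG hk hp hc hC₀
  obtain ⟨H, hH⟩ := hX
  obtain ⟨δ, C, B0, q₁, hδ, hC, hB0, hq₁, h⟩ :=
    one_pairC hU hGAP hINF hRPT hDAP hDDS hCOM hI K P W G H k θ e C₀ hP hW hW1 hG hH hk hp hC₀
  obtain ⟨C', hC', h'⟩ := hERS K P θ δ hp.θpos hδ
  obtain ⟨Cz, hCz, hz⟩ := hZCB K P
  obtain ⟨Cy, hCy, hy⟩ := hYCB K P W H hW hW1 hH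
  obtain ⟨Ck, hCk, hck⟩ := hCKB K P k hk
  have hr : 0 < rk K P := rk_pos K hNRM P
  have hθ := hp.θpos
  have hθ1 : θ ≤ 1 := by
    have := hp.le
    have := hp.epos
    linarith
  have hnk : 1 ≤ nm k := by
    have h1 : Ideal.absNorm k ≠ 0 := by
      rw [Ne, Ideal.absNorm_eq_zero_iff]
      exact hk.1
    unfold nm
    exact_mod_cast Nat.one_le_iff_ne_zero.2 h1
  obtain ⟨lk, hlk⟩ : ∃ lk : ℝ, lk = Real.log (nm k) := ⟨_, rfl⟩
  have hlk0 : 0 ≤ lk := by rw [hlk]; exact Real.log_nonneg hnk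
  obtain ⟨CC, hCC⟩ : ∃ CC : ℝ, CC = Cz + Ck + 2 * Cy + Real.exp (2 * C₀) +
    Real.exp (2 * C₀) * ((Real.exp lk + 2) * lk) := ⟨_, rfl⟩
  have hx0 : 0 ≤ Real.exp (2 * C₀) * ((Real.exp lk + 2) * lk) := by positivity
  have hx1 : 0 < Real.exp (2 * C₀) := Real.exp_pos _
  have hCC0 : 0 ≤ CC := by rw [hCC]; positivity
  obtain ⟨CF, hCF⟩ : ∃ CF : ℝ, CF = 1 + C₀ + C₀ ^ 2 := ⟨_, rfl⟩
  have hCF0 : 0 ≤ CF := by rw [hCF]; positivity
  obtain ⟨D1, hD1⟩ : ∃ D1 : ℝ, D1 = CC * (CF + 1) + (2 * CC * CC * (rk K P + CC) +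
    rk K P * CC * (rk K P + CC) + rk K P * CC * CC) * ((CF + 1) / rk K P) := ⟨_, rfl⟩
  have hD10 : 0 ≤ D1 := by rw [hD1]; positivity
  obtain ⟨D2, hD2⟩ : ∃ D2 : ℝ, D2 = rk K P * (1 + CC) / (c * θ) := ⟨_, rfl⟩
  have hD20 : 0 ≤ D2 := by rw [hD2]; positivity
  refine ⟨max B0 1, le_max_of_le_right zero_le_one, fun η hη => ?_⟩
  obtain ⟨η₁, hη₁⟩ : ∃ η₁ : ℝ, η₁ = min 1 (η / (3 * (W1 W * D2 + 1))) := ⟨_, rfl⟩
  have hη₁0 : 0 < η₁ := by rw [hη₁]; exact lt_min one_pos (by positivity)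
  have hη₁1 : η₁ ≤ 1 := by rw [hη₁]; exact min_le_left _ _
  have hη₁2 : W1 W * (D2 * η₁) ≤ η / 3 := by
    have e1 : η₁ ≤ η / (3 * (W1 W * D2 + 1)) := by rw [hη₁]; exact min_le_right _ _
    rw [le_div_iff₀ (by positivity)] at e1
    have e2 : η₁ * (3 * (W1 W * D2 + 1)) = 3 * (W1 W * (D2 * η₁)) + 3 * η₁ := by ring
    linarith
  obtain ⟨M1, hM1, hA1⟩ := hAR1 K P C₀ η₁ hC₀ hη₁0
  obtain ⟨M2, hM2, hA2⟩ := hAR2 K P C₀ η₁ hC₀ hη₁0
  -- large `Q`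
  have ev1 : ∀ᶠ Q : ℝ in atTop, C * C' * Q ^ (-(δ / 2)) ≤ η / 3 := by
    have hlim : Tendsto (fun Q : ℝ => C * C' * Q ^ (-(δ / 2))) atTop (𝓝 0) := by
      have := (tendsto_rpow_neg_atTop (half_pos hδ)).const_mul (C * C')
      simpa using this
    exact (hlim.eventually (gt_mem_nhds (by positivity : (0 : ℝ) < η / 3))).mono fun _ h => h.le
  have ev2 : ∀ᶠ Q : ℝ in atTop, max M1 M2 ≤ Q ^ θ :=
    (tendsto_rpow_atTop hθ).eventually (eventually_ge_atTop _)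
  have ev3 : ∀ᶠ Q : ℝ in atTop,
      max (max (3 * W1 W * D1 / (η * θ)) (32 * C₀)) (max (2 * C₀) (16 * C₀ + 1)) ≤ Real.log Q :=
    Real.tendsto_log_atTop.eventually (eventually_ge_atTop _)
  obtain ⟨q₂, h2⟩ := eventually_atTop.1 (ev1.and (ev2.and ev3))
  refine ⟨max q₁ q₂, le_max_of_le_left hq₁, fun Q hQ α β u hAd hcw => ?_⟩
  have Q1 : q₁ ≤ Q := (le_max_left _ _).trans hQ
  obtain ⟨g1, g2, g3⟩ := h2 Q ((le_max_right _ _).trans hQ)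
  have hQ2 : 2 ≤ Q := hq₁.trans Q1
  have hQ1 : 1 ≤ Q := by linarith
  have hQ0 : 0 < Q := by linarith
  obtain ⟨L, hL⟩ : ∃ L : ℝ, L = Real.log Q := ⟨_, rfl⟩
  have hL0 : 0 < L := by rw [hL]; exact Real.log_pos (by linarith)
  rw [← hL] at g3 hcw
  have g31 : 3 * W1 W * D1 / (η * θ) ≤ L := (le_max_left _ _).trans ((le_max_left _ _).trans g3)
  have g32 : 32 * C₀ ≤ L := (le_max_right _ _).trans ((le_max_left _ _).trans g3)
  have g33 : 2 * C₀ ≤ L := (le_max_left _ _).trans ((le_max_right _ _).trans g3)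
  have g34 : 16 * C₀ + 1 ≤ L := (le_max_right _ _).trans ((le_max_right _ _).trans g3)
  have hα : ‖α‖ ≤ C₀ / L := by rw [hL]; exact hAd.1
  have hβ : ‖β‖ ≤ C₀ / L := by rw [hL]; exact hAd.2
  have hN1 : Nr (se α u) := Nr_se u (by linarith) (by rw [← hL]; linarith) hAd
  have hN2 : Nr (se β (-u)) := Nr_se (-u) (by linarith) (by rw [← hL]; linarith) (Ad_symm hAd)
  obtain ⟨w, hw⟩ : ∃ w : ℂ, w = α + β := ⟨_, rfl⟩
  have hwn : ‖w‖ ≤ 2 * C₀ / L := by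
    rw [hw]
    refine (norm_add_le _ _).trans ?_
    have : 2 * C₀ / L = C₀ / L + C₀ / L := by ring
    linarith
  have hw16 : ‖w‖ ≤ 1 / 16 := by
    refine hwn.trans ?_
    rw [div_le_iff₀ hL0]
    linarith
  have hcL : 0 < c / L := div_pos hc hL0
  have hw0 : 0 < ‖w‖ := hcL.trans_le (by rw [hw]; exact hcw)
  have hwne : w ≠ 0 := norm_pos_iff.1 hw0
  have hwL : ‖w‖ * L ≤ 2 * C₀ := by
    rw [le_div_iff₀ hL0] at hwn
    exact hwn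
  obtain ⟨ℓ, hℓ⟩ : ∃ ℓ : ℝ, ℓ = θ * L := ⟨_, rfl⟩
  have hℓ0 : 0 < ℓ := by rw [hℓ]; positivity
  have hℓL : ℓ ≤ L := by rw [hℓ]; exact mul_le_of_le_one_left hL0.le hθ1
  have hlogy : Real.log (Q ^ θ) = ℓ := by rw [Real.log_rpow hQ0, hℓ, hL]
  -- the quadratic forms
  have hα' : ‖α‖ ≤ C₀ / Real.log (Q ^ θ) := by
    rw [hlogy]
    exact hα.trans (div_le_div_of_nonneg_left hC₀.le hℓ0 hℓL)
  have hβ' : ‖β‖ ≤ C₀ / Real.log (Q ^ θ) := by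
    rw [hlogy]
    exact hβ.trans (div_le_div_of_nonneg_left hC₀.le hℓ0 hℓL)
  have b1 := hA1 (Q ^ θ) α β ((le_max_left _ _).trans g2) hα' hβ'
  have b2 := hA2 (Q ^ θ) α β ((le_max_right _ _).trans g2) hα' hβ'
  rw [hlogy] at b1 b2
  have c1 : ‖FF α β ℓ‖ ≤ CF * ℓ := by rw [hCF]; exact FF_bd hL0 hℓ0.le hℓL hC₀.le hα hβ
  have c2 : ‖FF (-α) (-β) ℓ‖ ≤ CF * ℓ := by
    rw [hCF]
    exact FF_bd hL0 hℓ0.le hℓL hC₀.le (by rwa [norm_neg]) (by rwa [norm_neg])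
  -- the constants
  have d1 : ‖Zc K P w - (rk K P : ℂ) / w‖ ≤ CC := by
    refine (hz w hwne hw16).trans ?_
    rw [hCC]
    linarith
  have d2 : ‖(rh K : ℂ) * ck P k w - (rk K P : ℂ)‖ ≤ CC * ‖w‖ := by
    refine (hck w hw16).trans ?_
    refine mul_le_mul_of_nonneg_right ?_ hw0.le
    rw [hCC]
    linarith
  have d3 : ‖cexp (-w * L)‖ ≤ Real.exp (2 * C₀) := by
    refine norm_exp_le ?_
    rw [norm_mul, norm_neg, Complex.norm_real, Real.norm_of_nonneg hL0.le]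
    exact hwL
  have d3' : ‖cexp (-w * L)‖ ≤ CC := by
    refine d3.trans ?_
    rw [hCC]
    linarith
  have hpE : ((nm k * Q : ℝ) : ℂ) ^ (-w) = cexp (-w * L) * cexp (-w * lk) := by
    have e1 : ((nm k * Q : ℝ) : ℂ) ≠ 0 := by
      have : 0 < nm k * Q := by positivity
      exact_mod_cast this.ne'
    rw [Complex.cpow_def_of_ne_zero e1, ← Complex.ofReal_log (by positivity),
      Real.log_mul (by linarith) hQ0.ne', ← Complex.exp_add, ← hL, ← hlk]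
    congr 1
    push_cast
    ring
  have d4 : ‖((nm k * Q : ℝ) : ℂ) ^ (-w) - cexp (-w * L)‖ ≤ CC * ‖w‖ := by
    rw [hpE]
    have e1 : cexp (-w * L) * cexp (-w * lk) - cexp (-w * L) =
        cexp (-w * L) * (cexp (-w * lk) - 1) := by ring
    rw [e1, norm_mul]
    have e2 : ‖-w * (lk : ℂ)‖ = ‖w‖ * lk := by
      rw [norm_mul, norm_neg, Complex.norm_real, Real.norm_of_nonneg hlk0]
    have e3 : ‖-w * (lk : ℂ)‖ ≤ lk := by
      rw [e2]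
      have := mul_le_mul_of_nonneg_right hw16 hlk0
      linarith
    have e4 := norm_exp_sub_one e3
    rw [e2] at e4
    calc ‖cexp (-w * L)‖ * ‖cexp (-w * lk) - 1‖ ≤
        Real.exp (2 * C₀) * ((Real.exp lk + 2) * (‖w‖ * lk)) := by gcongr
      _ = Real.exp (2 * C₀) * ((Real.exp lk + 2) * lk) * ‖w‖ := by ring
      _ ≤ CC * ‖w‖ := by
          refine mul_le_mul_of_nonneg_right ?_ hw0.le
          rw [hCC]
          linarith
  obtain ⟨v, hv⟩ : ∃ v : ℝ, v = 1 + |u| := ⟨_, rfl⟩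
  have hv1 : 1 ≤ v := by rw [hv]; linarith [abs_nonneg u]
  have him : ∀ (γ : ℂ) (x : ℝ), ‖γ‖ ≤ C₀ / L → |x| = |u| → 1 + |(se γ x).im| ≤ 2 * v := by
    intro γ x hγ hx
    have e1 : (se γ x).im = γ.im + x := by
      unfold se
      simp
    rw [e1]
    have e2 := abs_add_le γ.im x
    have e3 := (Complex.abs_im_le_norm γ).trans hγ
    have e4 : C₀ / L ≤ 1 := by
      rw [div_le_iff₀ hL0]
      linarith
    rw [hv]
    linarith [abs_nonneg u]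
  have d5 : ‖(Yc K P W H (se α u) w + Yc K P W H (se β (-u)) w) / 2 - (rk K P : ℂ) / w‖ ≤
      CC * v := by
    have e1 := hy (se α u) w hN1 hwne hw16
    have e2 := hy (se β (-u)) w hN2 hwne hw16
    have e3 : Cy * (1 + |(se α u).im|) ≤ Cy * (2 * v) :=
      mul_le_mul_of_nonneg_left (him α u hα rfl) hCy
    have e4 : Cy * (1 + |(se β (-u)).im|) ≤ Cy * (2 * v) :=
      mul_le_mul_of_nonneg_left (him β (-u) hβ (abs_neg u)) hCy
    have e5 : (Yc K P W H (se α u) w + Yc K P W H (se β (-u)) w) / 2 - (rk K P : ℂ) / w =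
        ((Yc K P W H (se α u) w - (rk K P : ℂ) / w) +
          (Yc K P W H (se β (-u)) w - (rk K P : ℂ) / w)) / 2 := by ring
    have e6 : 2 * Cy * v ≤ CC * v := by
      refine mul_le_mul_of_nonneg_right ?_ (by linarith)
      rw [hCC]
      linarith
    rw [e5, norm_div]
    have e7 : ‖(2 : ℂ)‖ = 2 := by simp
    rw [e7, div_le_iff₀ (by norm_num)]
    refine (norm_add_le _ _).trans ?_
    linarith
  have key := main_est hr hL0 hc hθ hℓ hCC0 hCF0 hη₁0.le hη₁1 hv1 (by rw [hw]; exact hcw)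
    (by linarith : ‖w‖ ≤ 1) b1 b2 c1 c2 d1 d2 d4 d3' d5
  rw [← hD1, ← hD2] at key
  -- the sum over the pairs
  have hne : α + β ≠ 0 := by rw [← hw]; exact hwne
  have hy1 : 1 ≤ Q ^ θ := Real.one_le_rpow hQ1 hθ.le
  have hZ0 : 0 < Q ^ (1 + e) := Real.rpow_pos_of_pos hQ0 _
  rw [hOPS K P (Q ^ θ) (Q ^ (1 + e)) Q W G k α β u hy1 hZ0 hQ0 hW hG hk hN1 hN2]
  have s1 : ‖(∑ S ∈ DP K P (Q ^ θ), ∑ T ∈ DP K P (Q ^ θ),
      ((lm K P (Q ^ θ) S * lm K P (Q ^ θ) T : ℝ) : ℂ) * (((nm (idS S) : ℝ) : ℂ) ^ (-se 0 u) *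
      ((nm (idS T) : ℝ) : ℂ) ^ (-se 0 (-u)) *
        Ba2 P (Q ^ (1 + e)) Q W G k (idS S) (idS T) (se α u) (se β (-u)))) -
      ∑ S ∈ DP K P (Q ^ θ), ∑ T ∈ DP K P (Q ^ θ),
      ((lm K P (Q ^ θ) S * lm K P (Q ^ θ) T : ℝ) : ℂ) * Mp P Q W H k α β u S T‖ ≤
      C * v ^ B0 * (C' * Q ^ (2 - δ / 2)) := by
    rw [← Finset.sum_sub_distrib]
    have hb := h' Q hQ1
    calc ‖∑ S ∈ DP K P (Q ^ θ), (∑ T ∈ DP K P (Q ^ θ),
      ((lm K P (Q ^ θ) S * lm K P (Q ^ θ) T : ℝ) : ℂ) * (((nm (idS S) : ℝ) : ℂ) ^ (-se 0 u) *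
      ((nm (idS T) : ℝ) : ℂ) ^ (-se 0 (-u)) *
        Ba2 P (Q ^ (1 + e)) Q W G k (idS S) (idS T) (se α u) (se β (-u))) -
      ∑ T ∈ DP K P (Q ^ θ),
      ((lm K P (Q ^ θ) S * lm K P (Q ^ θ) T : ℝ) : ℂ) * Mp P Q W H k α β u S T)‖
        ≤ ∑ S ∈ DP K P (Q ^ θ), ∑ T ∈ DP K P (Q ^ θ),
          C * v ^ B0 * (|lm K P (Q ^ θ) S * lm K P (Q ^ θ) T| * Er Q δ S T) := by
          refine norm_sum_le_of_le _ fun S hS => ?_
          rw [← Finset.sum_sub_distrib]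
          refine norm_sum_le_of_le _ fun T hT => ?_
          rw [← mul_sub, norm_mul, Complex.norm_real, Real.norm_eq_abs]
          have := mul_le_mul_of_nonneg_left (h Q Q1 S hS T hT α β u hAd hne)
            (abs_nonneg (lm K P (Q ^ θ) S * lm K P (Q ^ θ) T))
          rw [← hv] at this
          linarith
      _ = C * v ^ B0 * ∑ S ∈ DP K P (Q ^ θ), ∑ T ∈ DP K P (Q ^ θ),
          (|lm K P (Q ^ θ) S * lm K P (Q ^ θ) T| * Er Q δ S T) := by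
          rw [Finset.mul_sum]
          refine Finset.sum_congr rfl fun S _ => ?_
          rw [Finset.mul_sum]
      _ ≤ C * v ^ B0 * (C' * Q ^ (2 - δ / 2)) := by
          refine mul_le_mul_of_nonneg_left hb ?_
          have : 0 ≤ v ^ B0 := Real.rpow_nonneg (by linarith) _
          positivity
  rw [sum_Mp, ← hw] at s1
  obtain ⟨SS, hSS⟩ : ∃ SS : ℂ, SS = ∑ S ∈ DP K P (Q ^ θ), ∑ T ∈ DP K P (Q ^ θ),
      ((lm K P (Q ^ θ) S * lm K P (Q ^ θ) T : ℝ) : ℂ) * (((nm (idS S) : ℝ) : ℂ) ^ (-se 0 u) *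
      ((nm (idS T) : ℝ) : ℂ) ^ (-se 0 (-u)) *
        Ba2 P (Q ^ (1 + e)) Q W G k (idS S) (idS T) (se α u) (se β (-u))) := ⟨_, rfl⟩
  rw [← hSS] at s1 ⊢
  obtain ⟨MM, hMM⟩ : ∃ MM : ℂ, MM = (rk K P : ℂ) * Zc K P w * V1 K P (Q ^ θ) α β -
      (rh K : ℂ) * ck P k w * ((nm k * Q : ℝ) : ℂ) ^ (-w) *
      ((Yc K P W H (se α u) w + Yc K P W H (se β (-u)) w) / 2) *
        V2 K P (Q ^ θ) α β := ⟨_, rfl⟩
  rw [← hMM] at s1 key
  have hBm : Bm α β (Real.log Q) (θ * Real.log Q) =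
      1 / (w * (ℓ : ℂ) ^ 2) * (FF α β ℓ - cexp (-w * L) * FF (-α) (-β) ℓ) := by
    unfold Bm
    rw [← hL, ← hℓ, ← hw]
  have s2 : ‖((W1 W * Q ^ 2 : ℝ) : ℂ) * MM -
      ((rk K P * W1 W * Q ^ 2 : ℝ) : ℂ) * Bm α β (Real.log Q) (θ * Real.log Q)‖ ≤
      W1 W * Q ^ 2 * (D1 * (v / ℓ) + D2 * η₁) := by
    rw [hBm]
    have e1 : ((W1 W * Q ^ 2 : ℝ) : ℂ) * MM - ((rk K P * W1 W * Q ^ 2 : ℝ) : ℂ) *
        (1 / (w * (ℓ : ℂ) ^ 2) * (FF α β ℓ - cexp (-w * L) * FF (-α) (-β) ℓ)) =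
        ((W1 W * Q ^ 2 : ℝ) : ℂ) * (MM - rk K P *
          (1 / (w * (ℓ : ℂ) ^ 2) * (FF α β ℓ - cexp (-w * L) * FF (-α) (-β) ℓ))) := by
      push_cast
      ring
    rw [e1, norm_mul, Complex.norm_real, Real.norm_of_nonneg (by positivity)]
    exact mul_le_mul_of_nonneg_left key (by positivity)
  have hvB : v ≤ v ^ (max B0 1) := by
    calc v = v ^ (1 : ℝ) := (Real.rpow_one v).symm
      _ ≤ v ^ (max B0 1) := Real.rpow_le_rpow_of_exponent_le hv1 (le_max_right _ _)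
  have hvB0 : v ^ B0 ≤ v ^ (max B0 1) := Real.rpow_le_rpow_of_exponent_le hv1 (le_max_left _ _)
  have hv0 : 0 ≤ v ^ B0 := Real.rpow_nonneg (by linarith) _
  have hvV : 1 ≤ v ^ (max B0 1) := hv1.trans hvB
  rw [← hv]
  obtain ⟨V, hV⟩ : ∃ V : ℝ, V = v ^ (max B0 1) := ⟨_, rfl⟩
  rw [← hV] at hvB hvB0 hvV ⊢
  have t1 : C * v ^ B0 * (C' * Q ^ (2 - δ / 2)) ≤ η / 3 * V * Q ^ 2 := by
    have e3 : Q ^ (2 - δ / 2) = Q ^ (-(δ / 2)) * Q ^ 2 := by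
      rw [← Real.rpow_natCast Q 2, ← Real.rpow_add hQ0]
      congr 1
      push_cast
      ring
    rw [e3]
    calc C * v ^ B0 * (C' * (Q ^ (-(δ / 2)) * Q ^ 2)) =
        (C * C' * Q ^ (-(δ / 2))) * v ^ B0 * Q ^ 2 := by ring
      _ ≤ η / 3 * V * Q ^ 2 := by gcongr
  have t2 : W1 W * (D1 * (v / ℓ)) ≤ η / 3 * V := by
    have e1 : W1 W * D1 / ℓ ≤ η / 3 := by
      rw [div_le_iff₀ (by positivity)] at g31
      rw [div_le_iff₀ hℓ0, hℓ]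
      have e0 : η / 3 * (θ * L) = L * (η * θ) / 3 := by ring
      rw [e0]
      linarith
    have e2 : W1 W * (D1 * (v / ℓ)) = W1 W * D1 / ℓ * v := by ring
    rw [e2]
    gcongr
  have t3 : W1 W * (D2 * η₁) ≤ η / 3 * V := by
    have : η / 3 * 1 ≤ η / 3 * V := by gcongr
    linarith
  have t4 : W1 W * Q ^ 2 * (D1 * (v / ℓ) + D2 * η₁) ≤ (η / 3 * V + η / 3 * V) * Q ^ 2 := by
    have : W1 W * Q ^ 2 * (D1 * (v / ℓ) + D2 * η₁) =
        (W1 W * (D1 * (v / ℓ)) + W1 W * (D2 * η₁)) * Q ^ 2 := by ring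
    rw [this]
    gcongr
  have fin : SS - ((rk K P * W1 W * Q ^ 2 : ℝ) : ℂ) * Bm α β (Real.log Q) (θ * Real.log Q) =
      (SS - ((W1 W * Q ^ 2 : ℝ) : ℂ) * MM) + (((W1 W * Q ^ 2 : ℝ) : ℂ) * MM -
      ((rk K P * W1 W * Q ^ 2 : ℝ) : ℂ) * Bm α β (Real.log Q) (θ * Real.log Q)) := by ring
  rw [fin]
  refine (norm_add_le _ _).trans ?_
  linarith

end

end Pool.Agent.H33.HC
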