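import Pool.Agent.H33.HC.TA

/-!
# Targets, part B: the second moment with shifts (page H33_CRIT.md in the team store)
-/

set_option autoImplicit false

open NumberField Complex Filter Topology MeasureTheory
open scoped ContDiff nonZeroDivisors

namespace Pool.Agent.H33.HC

open Pool.Agent.H28.RC Pool.Agent.H37.CV Pool.Agent.H33.HH Pool.Agent.H65.CRZ

noncomputable section

/-! ### The sums over `γ` -/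

/-- GSMC: smooth sums over the `γ`, complex values. -/
def T_GSMC : Prop := ∀ (K : Type) [Field K] [NumberField K] [IQ K] (P : ℝ) (j : ℕ),
  (SP K P).Nonempty → 2 ≤ j →
  ∃ C : ℝ, 0 ≤ C ∧ ∀ y : ℝ, 1 ≤ y → ∀ S ∈ DP K P y, ∀ b k l : Ideal (𝓞 K), b ≠ ⊥ → Cp P b →
  Sm' P k → l ≠ ⊥ → ∀ (R M : ℝ) (F : ℂ → ℂ), 0 < R →
  nS np (SP K P) * (nS np S * nm k * nm l) ≤ R ^ 2 * nm b → ContDiff ℝ ∞ F →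
  (∀ z, 1 < ‖z‖ → F z = 0) → (∀ z, ‖iteratedFDeriv ℝ j F z‖ ≤ M) →
  ‖(∑' γ : Ga P (idS S) b (k * l), F ((em K γ.1 - 1) / R)) -
    ((gs P S b k l * (2 / sd K) * (nm b / (nS np S * nm k * nm l)) * R ^ 2 : ℝ) : ℂ) *
      ∫ z, F z‖ ≤ C * M * (R ^ 2 * nm b / (nS np S * nm k * nm l)) ^ (1 - (j : ℝ) / 2)

/-- GA1C: the sum over `γ`. -/
def T_GA1C : Prop := ∀ (K : Type) [Field K] [NumberField K] [IQ K] (P : ℝ) (W G H : ℝ → ℝ)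
  (k : Ideal (𝓞 K)) (j : ℕ), (SP K P).Nonempty → IsW W → IsG G → IsH H → Sm' P k → 2 ≤ j →
  ∃ C : ℝ, 0 ≤ C ∧ ∀ y Q Z : ℝ, 1 ≤ y → 0 < Z → nS np (SP K P) * y ≤ Q → ∀ S ∈ DP K P y,
  ∀ b l : Ideal (𝓞 K), b ≠ ⊥ → Cp P b → l ≠ ⊥ → ∀ s : ℂ, Nr s →
  ‖(∑' γ : Ga P (idS S) b (k * l), Hs H s (‖em K γ.1‖ ^ 2) *
      Gs G s (‖em K γ.1‖ ^ 2 * nm b / (nS np S * Z)) *
      ((w1 W (‖em K γ.1 - 1‖ ^ 2 * nm b / (nm k * nm l * Q)) : ℝ) : ℂ)) -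
    ((gs P S b k l * (2 / sd K) * (nm b / (nS np S * nm k * nm l)) : ℝ) : ℂ) *
      ∫ g : ℂ, Hs H s (‖g‖ ^ 2) * Gs G s (‖g‖ ^ 2 * nm b / (nS np S * Z)) *
        ((w1 W (‖g - 1‖ ^ 2 * nm b / (nm k * nm l * Q)) : ℝ) : ℂ)‖ ≤
    C * (1 + |s.im|) ^ j * (Q / nS np S) ^ (1 - (j : ℝ) / 2)

/-- GA2C: the range of the complementary divisors. -/
def T_GA2C : Prop := ∀ W G H : ℝ → ℝ, IsW W → IsG G → IsH H → ∃ C : ℝ, 0 ≤ C ∧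
  ∀ (s g : ℂ) (x t v : ℝ), 0 < x → 0 < t → 0 < v →
  Hs H s (‖g‖ ^ 2) * Gs G s (‖g‖ ^ 2 * t) * ((w1 W (‖g - 1‖ ^ 2 * x / v) : ℝ) : ℂ) ≠ 0 →
  v ≤ C * (x / t + x)

/-- GA3C: the sum over the complementary divisors. -/
def T_GA3C : Prop := ∀ (K : Type) [Field K] [NumberField K] [IQ K] (P y : ℝ) (W G H : ℝ → ℝ),
  1 ≤ y → IsW W → IsG G → IsH H → ∀ S ∈ DP K P y, ∀ b k : Ideal (𝓞 K), b ≠ ⊥ → Cp P b →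
  Sm' P k → ∀ s : ℂ, Nr s → ∀ Q x t : ℝ, 0 < Q → 0 < x → 0 < t →
  ∑' l : NI K, ((gs P S b k l.1 * (Q / nm l.1) : ℝ) : ℂ) *
      ∫ g : ℂ, Hs H s (‖g‖ ^ 2) * Gs G s (‖g‖ ^ 2 * t) *
        ((w1 W (‖g - 1‖ ^ 2 * x / (nm l.1 * Q)) : ℝ) : ℂ) =
    ∑ R₁ ∈ S.powerset, ∑ R₀ ∈ (SP K P).powerset,
      ((ha R₁ b * hk P k R₀ * (Q / (nS np R₁ * nS np R₀)) : ℝ) : ℂ) *
      (((Thi K W : ℝ) : ℂ) * Jc G H s t + Kc K W G H s (x / (nS np R₁ * nS np R₀ * Q)) t)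

/-! ### The steps of the second moment -/

/-- UNFC: the diagonal and the off-diagonal terms. -/
def T_UNFC : Prop := ∀ (K : Type) [Field K] [NumberField K] [IQ K] (P Z Q : ℝ) (W G H : ℝ → ℝ),
  0 < Q → 0 < Z → IsW W → IsG G → IsH H → ∀ a b k : Ideal (𝓞 K), a ≠ ⊥ → b ≠ ⊥ → Cp P a →
  Cp P b → Sm' P k → ∀ (α β : ℂ) (u : ℝ), Nr (se α u) → Nr (se β (-u)) →
  ((nm a : ℝ) : ℂ) ^ (-se 0 u) * ((nm b : ℝ) : ℂ) ^ (-se 0 (-u)) *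
    Ba2 P Z Q W G k a b (se α u) (se β (-u)) =
  ((TW K P Q W : ℝ) : ℂ) * Dd2 P Z G a b α β u + Oa2 P Z Q W G H k a b α β u +
    Oa2 P Z Q W G H k b a β α (-u)

/-- GAPC: the off-diagonal sum is close to its main term. -/
def T_GAPC : Prop := ∀ (K : Type) [Field K] [NumberField K] [IQ K] (P : ℝ) (W G H : ℝ → ℝ)
  (k : Ideal (𝓞 K)) (θ e C₀ : ℝ), (SP K P).Nonempty → IsW W → IsG G → IsH H → Sm' P k →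
  Par θ e → 0 < C₀ → ∃ C B Q₁ : ℝ, 0 ≤ C ∧ 0 ≤ B ∧ 1 ≤ Q₁ ∧ ∀ Q : ℝ, Q₁ ≤ Q →
  ∀ S ∈ DP K P (Q ^ θ), ∀ T ∈ DP K P (Q ^ θ), ∀ (α β : ℂ) (u : ℝ), Ad C₀ Q α β →
  ‖Oa2 P (Q ^ (1 + e)) Q W G H k (idS S) (idS T) α β u -
    Na2 P (Q ^ (1 + e)) Q G k S (idS T) α β u
      (fun x t => ((Thi K W : ℝ) : ℂ) * Jc G H (se α u) t + Kc K W G H (se α u) x t)‖ ≤
    C * (1 + |u|) ^ B * Er Q 1 S T

open scoped Classical in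
/-- IN1C: the sum over `n` with the limit. -/
def T_IN1C : Prop := ∀ (K : Type) [Field K] [NumberField K] [IQ K] (P : ℝ) (G H : ℝ → ℝ)
  (θ e C₀ ε : ℝ), (SP K P).Nonempty → IsG G → IsH H → Par θ e → 0 < C₀ → 0 < ε →
  ∃ C Q₁ : ℝ, 0 ≤ C ∧ 1 ≤ Q₁ ∧ ∀ Q : ℝ, Q₁ ≤ Q → ∀ S ∈ DP K P (Q ^ θ), ∀ T ∈ DP K P (Q ^ θ),
  ∀ (α β : ℂ) (u : ℝ), Ad C₀ Q α β →
  ‖sumZ P (fun n => ((nm n : ℝ) : ℂ) ^ (-(α + β)) * (Gs G (se β (-u)) (nm n / Q ^ (1 + e)) *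
      Jc G H (se α u) (nS np T * nm n / (nS np S * Q ^ (1 + e)))) *
      ((∏ p ∈ S, ((if idS T * n ≤ p.1 then 1 else 0) + 1 - 1 / np p) : ℝ) : ℂ)) -
    ((rk K P * ∏ p ∈ S ∩ T, (2 - 1 / np p) : ℝ) : ℂ) *
      ((Q ^ (1 + e) : ℝ) : ℂ) ^ (1 - (α + β)) *
      ∫ t in Set.Ioi (0 : ℝ), (t : ℂ) ^ (-(α + β)) * (Gs G (se β (-u)) t *
        Jc G H (se α u) (nS np T / nS np S * t))‖ ≤ C * Q ^ ε

/-- INFC: the terms with the limit cancel. -/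
def T_INFC : Prop := ∀ (K : Type) [Field K] [NumberField K] [IQ K] (P : ℝ) (W G H : ℝ → ℝ)
  (k : Ideal (𝓞 K)) (θ e C₀ : ℝ), (SP K P).Nonempty → IsW W → IsG G → IsH H → Sm' P k →
  Par θ e → 0 < C₀ → ∃ C δ Q₁ : ℝ, 0 ≤ C ∧ 0 < δ ∧ 1 ≤ Q₁ ∧ ∀ Q : ℝ, Q₁ ≤ Q →
  ∀ S ∈ DP K P (Q ^ θ), ∀ T ∈ DP K P (Q ^ θ), ∀ (α β : ℂ) (u : ℝ), Ad C₀ Q α β →
  ‖Na2 P (Q ^ (1 + e)) Q G k S (idS T) α β u
      (fun _ t => ((Thi K W : ℝ) : ℂ) * Jc G H (se α u) t) +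
    Na2 P (Q ^ (1 + e)) Q G k T (idS S) β α (-u)
      (fun _ t => ((Thi K W : ℝ) : ℂ) * Jc G H (se β (-u)) t)‖ ≤ C * Er Q δ S T

/-- RPTC: the terms with the difference. -/
def T_RPTC : Prop := ∀ (K : Type) [Field K] [NumberField K] [IQ K] (P : ℝ) (W G H : ℝ → ℝ)
  (k : Ideal (𝓞 K)) (θ e C₀ : ℝ), IsW W → 0 < W1 W → IsG G → IsH H → Sm' P k → Par θ e →
  0 < C₀ → ∃ δ C Q₁ : ℝ, 0 < δ ∧ 0 ≤ C ∧ 1 ≤ Q₁ ∧ ∀ Q : ℝ, Q₁ ≤ Q → ∀ S ∈ DP K P (Q ^ θ),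
  ∀ T ∈ DP K P (Q ^ θ), ∀ (α β : ℂ) (u : ℝ), Ad C₀ Q α β →
  ‖Na2 P (Q ^ (1 + e)) Q G k S (idS T) α β u (fun x t => Kc K W G H (se α u) x t) -
    (Ea2 P (Q ^ (1 + e)) Q W G H k S (idS T) α β u -
      ((1 / 2 * rk K P * W1 W * Q ^ 2 : ℝ) : ℂ) *
        Dd2 P (Q ^ (1 + e)) G (idS S) (idS T) α β u)‖ ≤ C * Er Q δ S T

/-- DAPC: the diagonal term. -/
def T_DAPC : Prop := ∀ (K : Type) [Field K] [NumberField K] [IQ K] (P : ℝ) (W G : ℝ → ℝ)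
  (θ e C₀ : ℝ), IsW W → IsG G → Par θ e → 0 < C₀ → ∃ C δ Q₁ : ℝ, 0 ≤ C ∧ 0 < δ ∧ 1 ≤ Q₁ ∧
  ∀ Q : ℝ, Q₁ ≤ Q → ∀ S ∈ DP K P (Q ^ θ), ∀ T ∈ DP K P (Q ^ θ), ∀ (α β : ℂ) (u : ℝ),
  Ad C₀ Q α β →
  ‖((TW K P Q W - rk K P * W1 W * Q ^ 2 : ℝ) : ℂ) *
    Dd2 P (Q ^ (1 + e)) G (idS S) (idS T) α β u‖ ≤ C * Er Q δ S T

/-- DDS: the symmetry of the diagonal sum. -/
def T_DDS : Prop := ∀ (K : Type) [Field K] [NumberField K] [IQ K] (P Z : ℝ) (G : ℝ → ℝ)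
  (a b : Ideal (𝓞 K)) (α β : ℂ) (u : ℝ), 0 < Z → IsG G → a ≠ ⊥ → b ≠ ⊥ →
  Nr (se α u) → Nr (se β (-u)) → Dd2 P Z G b a β α (-u) = Dd2 P Z G a b α β u

open scoped Classical in
/-- CO1C: the sum over `n` with the coefficients at the primes of `a`. -/
def T_CO1C : Prop := ∀ (K : Type) [Field K] [NumberField K] [IQ K] (P : ℝ), ∃ C : ℝ, 0 ≤ C ∧
  ∀ (f f' : ℝ → ℂ) (T A y : ℝ) (w : ℂ), 0 ≤ A → 1 ≤ y → SlC T A f f' → w ≠ 0 →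
  ‖w‖ ≤ 1 / 16 → ∀ S ∈ DP K P y, ∀ S' ∈ DP K P y, ∀ R ∈ S.powerset, nS np (R \ S') ≤ T →
  ‖sumZ (K := K) P (fun n => ((ha R (idS S' * n) : ℝ) : ℂ) *
      (((nm n : ℝ) : ℂ) ^ (-1 - w) * f (nm n))) -
    ((fS np (R ∩ S') : ℝ) : ℂ) * (Zc K P w * ∏ p ∈ R \ S', (((np p : ℝ) : ℂ) ^ (-w) - 1) -
      (if R ⊆ S' then (rk K P : ℂ) * (T : ℂ) ^ (-w) *
        (1 / w - Lw w (fun v => f (T * v))) else 0))‖ ≤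
    C * (1 + A) * 2 ^ R.card * fS np (R ∩ S') * nS np (R \ S') ^ ‖w‖ *
      (T / nS np (R \ S')) ^ (-(1 / 8) : ℝ)

/-- COMC: the sum over `n`. -/
def T_COMC : Prop := ∀ (K : Type) [Field K] [NumberField K] [IQ K] (P : ℝ) (W G H : ℝ → ℝ)
  (k : Ideal (𝓞 K)) (θ e C₀ : ℝ), IsW W → 0 < W1 W → IsG G → IsH H → Sm' P k → Par θ e →
  0 < C₀ → ∃ δ C B Q₁ : ℝ, 0 < δ ∧ 0 ≤ C ∧ 0 ≤ B ∧ 1 ≤ Q₁ ∧ ∀ Q : ℝ, Q₁ ≤ Q →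
  ∀ S ∈ DP K P (Q ^ θ), ∀ T ∈ DP K P (Q ^ θ), ∀ (α β : ℂ) (u : ℝ), Ad C₀ Q α β →
  α + β ≠ 0 →
  ‖Ea2 P (Q ^ (1 + e)) Q W G H k S (idS T) α β u -
    ((1 / 2 * W1 W * Q ^ 2 : ℝ) : ℂ) * ((rk K P : ℂ) * Zc K P (α + β) * U1 α β S T -
      (rh K : ℂ) * ck P k (α + β) * ((nm k * Q : ℝ) : ℂ) ^ (-(α + β)) *
        Yc K P W H (se α u) (α + β) * U2 α β S T)‖ ≤ C * (1 + |u|) ^ B * Er Q δ S T

/-! ### The constants -/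

/-- ZCB: the constant of the harmonic sums. -/
def T_ZCB : Prop := ∀ (K : Type) [Field K] [NumberField K] [IQ K] (P : ℝ), ∃ C : ℝ, 0 ≤ C ∧
  ∀ w : ℂ, w ≠ 0 → ‖w‖ ≤ 1 / 16 → ‖Zc K P w - (rk K P : ℂ) / w‖ ≤ C

/-- YCB: the constant of the dual term. -/
def T_YCB : Prop := ∀ (K : Type) [Field K] [NumberField K] [IQ K] (P : ℝ) (W H : ℝ → ℝ),
  IsW W → 0 < W1 W → IsH H → ∃ C : ℝ, 0 ≤ C ∧ ∀ s w : ℂ, Nr s → w ≠ 0 → ‖w‖ ≤ 1 / 16 →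
  ‖Yc K P W H s w - (rk K P : ℂ) / w‖ ≤ C * (1 + |s.im|)

/-- CKB: the sum over the small primes. -/
def T_CKB : Prop := ∀ (K : Type) [Field K] [NumberField K] [IQ K] (P : ℝ) (k : Ideal (𝓞 K)),
  Sm' P k → ∃ C : ℝ, 0 ≤ C ∧ ∀ w : ℂ, ‖w‖ ≤ 1 / 16 →
  ‖(rh K : ℂ) * ck P k w - (rk K P : ℂ)‖ ≤ C * ‖w‖

/-! ### The quadratic forms -/

variable (K : Type) [Field K] [NumberField K] in
/-- the first quadratic form at Selberg's weights -/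
def V1 (P y : ℝ) (α β : ℂ) : ℂ := ∑ S ∈ DP K P y, ∑ T ∈ DP K P y,
  ((lm K P y S * lm K P y T : ℝ) : ℂ) * U1 α β S T

variable (K : Type) [Field K] [NumberField K] in
/-- the second quadratic form at Selberg's weights -/
def V2 (P y : ℝ) (α β : ℂ) : ℂ := ∑ S ∈ DP K P y, ∑ T ∈ DP K P y,
  ((lm K P y S * lm K P y T : ℝ) : ℂ) * U2 α β S T

open scoped Classical in
/-- EAP: the sums over the sets disjoint from the small primes. -/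
def T_EAP : Prop := ∀ (K : Type) [Field K] [NumberField K] (P M x : ℝ) (R : Finset (PrI K))
  (β : ℂ), Eb np (AP K P M) R x β = Eb np (PM K M) (R ∪ PM K P) x β

/-- MOP: moments of the logarithms. -/
def T_MOP : Prop := ∀ (K : Type) [Field K] [NumberField K] [IQ K] (P η : ℝ), 0 < η →
  ∃ M₀ : ℝ, 2 ≤ M₀ ∧ ∀ (M : ℝ) (k : ℕ), M₀ ≤ M → k ≤ 2 →
  |(∑ D ∈ DP K P M, Real.log (M / nS np D) ^ k / fS np D) -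
    rk K P * Real.log M ^ (k + 1) / (k + 1)| ≤ η * Real.log M ^ (k + 1)

/-- AR1: the first quadratic form. -/
def T_AR1 : Prop := ∀ (K : Type) [Field K] [NumberField K] [IQ K] (P C₀ η : ℝ), 0 < C₀ →
  0 < η → ∃ M₀ : ℝ, 2 ≤ M₀ ∧ ∀ (M : ℝ) (α β : ℂ), M₀ ≤ M → ‖α‖ ≤ C₀ / Real.log M →
  ‖β‖ ≤ C₀ / Real.log M →
  ‖((rk K P * Real.log M ^ 2 : ℝ) : ℂ) * V1 K P M α β - FF α β (Real.log M)‖ ≤
    η * Real.log M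

/-- AR2: the second quadratic form. -/
def T_AR2 : Prop := ∀ (K : Type) [Field K] [NumberField K] [IQ K] (P C₀ η : ℝ), 0 < C₀ →
  0 < η → ∃ M₀ : ℝ, 2 ≤ M₀ ∧ ∀ (M : ℝ) (α β : ℂ), M₀ ≤ M → ‖α‖ ≤ C₀ / Real.log M →
  ‖β‖ ≤ C₀ / Real.log M →
  ‖((rk K P * Real.log M ^ 2 : ℝ) : ℂ) * V2 K P M α β - FF (-α) (-β) (Real.log M)‖ ≤
    η * Real.log M

/-! ### The second moment -/

/-- OPS: the second moment opened. -/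
def T_OPS : Prop := ∀ (K : Type) [Field K] [NumberField K] [IQ K] (P y Z Q : ℝ)
  (W G : ℝ → ℝ) (k : Ideal (𝓞 K)) (α β : ℂ) (u : ℝ), 1 ≤ y → 0 < Z → 0 < Q → IsW W → IsG G →
  Sm' P k → Nr (se α u) → Nr (se β (-u)) →
  SMs P y Z Q W G k α β u = ∑ S ∈ DP K P y, ∑ T ∈ DP K P y,
    ((lm K P y S * lm K P y T : ℝ) : ℂ) * (((nm (idS S) : ℝ) : ℂ) ^ (-se 0 u) *
      ((nm (idS T) : ℝ) : ℂ) ^ (-se 0 (-u)) *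
        Ba2 P Z Q W G k (idS S) (idS T) (se α u) (se β (-u)))

/-- SH: the second moment with shifts. -/
def T_SH : Prop := ∀ (K : Type) [Field K] [NumberField K] [IQ K] (P : ℝ) (W G : ℝ → ℝ)
  (k : Ideal (𝓞 K)) (θ e c C₀ : ℝ), (SP K P).Nonempty → IsW W → 0 < W1 W → IsG G → Sm' P k →
  Par θ e → 0 < c → 0 < C₀ → ∃ B : ℝ, 0 ≤ B ∧ ∀ η : ℝ, 0 < η → ∃ Q₀ : ℝ, 2 ≤ Q₀ ∧
  ∀ Q : ℝ, Q₀ ≤ Q → ∀ (α β : ℂ) (u : ℝ), Ad C₀ Q α β → c / Real.log Q ≤ ‖α + β‖ →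
  ‖SMs P (Q ^ θ) (Q ^ (1 + e)) Q W G k α β u -
    ((rk K P * W1 W * Q ^ 2 : ℝ) : ℂ) * Bm α β (Real.log Q) (θ * Real.log Q)‖ ≤
    η * (1 + |u|) ^ B * Q ^ 2

end

end Pool.Agent.H33.HC
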