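import Pool.Agent.H33.HH.All
import Pool.Agent.H65.CRG.All
import Pool.Agent.H1.HC.DAPC
import Pool.Agent.H1.HC.MOP
import Pool.Agent.H11.HC.GA3C
import Pool.Agent.H12.HC.INFC
import Pool.Agent.H17.HC.KXC
import Pool.Agent.H17.HC.PSC
import Pool.Agent.H20.HC.GA2C
import Pool.Agent.H20.HC.IN1C
import Pool.Agent.H33.HC.GAPD
import Pool.Agent.H33.HC.QFC
import Pool.Agent.H33.HC.SH2
import Pool.Agent.H35.HC.AR1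
import Pool.Agent.H36.HC.ZCB
import Pool.Agent.H38.HC.HSC
import Pool.Agent.H38.HC.PLC
import Pool.Agent.H39.HC.BQS
import Pool.Agent.H4.HC.NSC
import Pool.Agent.H41.HC.GA1C
import Pool.Agent.H43.HC.GAPC
import Pool.Agent.H43.HC.RPTC
import Pool.Agent.H45.HC.IDZ
import Pool.Agent.H46.HC.JDC
import Pool.Agent.H47.HC.ZEX
import Pool.Agent.H49.HC.AR2
import Pool.Agent.H49.HC.MSC
import Pool.Agent.H49.HC.SDC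
import Pool.Agent.H49.HC.SGC
import Pool.Agent.H49.HC.SGE
import Pool.Agent.H49.HC.YCB
import Pool.Agent.H50.HC.GSMC
import Pool.Agent.H50.HC.LWB
import Pool.Agent.H51.HC.DDS
import Pool.Agent.H59.HC.BSZ
import Pool.Agent.H59.HC.MVC
import Pool.Agent.H59.HC.PSS
import Pool.Agent.H60.HC.CKB
import Pool.Agent.H60.HC.LGC
import Pool.Agent.H60.HC.PSC2
import Pool.Agent.H61.HC.UNFC
import Pool.Agent.H62.HC.COMC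
import Pool.Agent.H67.HC.GFC
import Pool.Agent.H67.HC.GSC
import Pool.Agent.H67.HC.JIC
import Pool.Agent.H68.HC.SPC
import Pool.Agent.H69.HC.OPS
import Pool.Agent.H69.HC.SSC
import Pool.Agent.H73.HC.EAP
import Pool.Agent.H77.HC.CNJ
import Pool.Agent.H86.HC.LEC
import Pool.Agent.H89.HC.CO1C
import Pool.Agent.H97.HC.SSC2

/-!
# The second moment with complex shifts of all ray class characters of an imaginary quadratic field: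
assembly (MP_347b49_nt, page H33_CRIT.md in the team store)
-/

set_option autoImplicit false

namespace Pool.Agent.H33.HC

theorem b_EAP : Pool.Agent.H33.HC.T_EAP :=
  Pool.Agent.H73.HC.pf_EAP

theorem b_MOP : Pool.Agent.H33.HC.T_MOP :=
  Pool.Agent.H1.HC.pf_MOP Pool.Agent.H33.HH.a_GLk

theorem b_AR1 : Pool.Agent.H33.HC.T_AR1 :=
  Pool.Agent.H35.HC.pf_AR1 Pool.Agent.H65.CRG.Base.c_S2 Pool.Agent.H65.CRG.Base.c_EB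
    Pool.Agent.H65.CRG.Base.c_EA b_EAP b_MOP Pool.Agent.H33.HH.a_GLk

theorem b_AR2 : Pool.Agent.H33.HC.T_AR2 :=
  Pool.Agent.H49.HC.pf_AR2 Pool.Agent.H65.CRG.Base.c_S1 Pool.Agent.H65.CRG.Base.c_EB
    Pool.Agent.H65.CRG.Base.c_EA b_EAP b_MOP Pool.Agent.H33.HH.a_GLk

theorem b_GSC : Pool.Agent.H33.HC.T_GSC :=
  Pool.Agent.H67.HC.pf_GSC

theorem b_BQS : Pool.Agent.H33.HC.T_BQS :=
  Pool.Agent.H39.HC.pf_BQS b_GSC Pool.Agent.H33.HH.a_IDF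

theorem b_BSZ : Pool.Agent.H33.HC.T_BSZ :=
  Pool.Agent.H59.HC.pf_BSZ b_GSC

theorem b_CKB : Pool.Agent.H33.HC.T_CKB :=
  Pool.Agent.H60.HC.pf_CKB Pool.Agent.H33.HH.a_HSU

theorem b_CNJ : Pool.Agent.H33.HC.T_CNJ :=
  Pool.Agent.H77.HC.pf_CNJ

theorem b_NSC : Pool.Agent.H33.HC.T_NSC :=
  Pool.Agent.H4.HC.pf_NSC Pool.Agent.H33.HH.a_CNT Pool.Agent.H33.HH.a_NS1

theorem b_SSC : Pool.Agent.H33.HC.T_SSC :=
  Pool.Agent.H69.HC.pf_SSC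

theorem b_CO1C : Pool.Agent.H33.HC.T_CO1C :=
  Pool.Agent.H89.HC.pf_CO1C b_NSC b_SSC Pool.Agent.H33.HH.a_IDF

theorem b_SPC : Pool.Agent.H33.HC.T_SPC :=
  Pool.Agent.H68.HC.pf_SPC

theorem b_SGC : Pool.Agent.H33.HC.T_SGC :=
  Pool.Agent.H49.HC.pf_SGC b_GSC

theorem b_HSC : Pool.Agent.H33.HC.T_HSC :=
  Pool.Agent.H38.HC.pf_HSC

theorem b_PSC : Pool.Agent.H33.HC.T_PSC :=
  Pool.Agent.H17.HC.pf_PSC b_HSC Pool.Agent.H33.HH.a_THB Pool.Agent.H33.HH.a_THI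

theorem b_LGC : Pool.Agent.H33.HC.T_LGC :=
  Pool.Agent.H60.HC.pf_LGC

theorem b_COMC : Pool.Agent.H33.HC.T_COMC :=
  Pool.Agent.H62.HC.pf_COMC b_CO1C b_SPC b_SSC b_SGC b_PSC b_LGC Pool.Agent.H33.HH.a_HSU
    Pool.Agent.H33.HH.a_IDF

theorem b_DAPC : Pool.Agent.H33.HC.T_DAPC :=
  Pool.Agent.H1.HC.pf_DAPC b_GSC Pool.Agent.H33.HH.a_TWA Pool.Agent.H33.HH.a_IDF

theorem b_DDS : Pool.Agent.H33.HC.T_DDS :=
  Pool.Agent.H51.HC.pf_DDS b_GSC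

theorem b_GFC : Pool.Agent.H33.HC.T_GFC :=
  Pool.Agent.H67.HC.pf_GFC b_GSC b_HSC Pool.Agent.H33.HH.a_CPM Pool.Agent.H33.HH.a_GFS

theorem b_GSMC : Pool.Agent.H33.HC.T_GSMC :=
  Pool.Agent.H50.HC.pf_GSMC Pool.Agent.H33.HH.a_GSM

theorem b_GA1C : Pool.Agent.H33.HC.T_GA1C :=
  Pool.Agent.H41.HC.pf_GA1C b_GFC b_GSMC

theorem b_GA2C : Pool.Agent.H33.HC.T_GA2C :=
  Pool.Agent.H20.HC.pf_GA2C Pool.Agent.H33.HH.a_GA2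

theorem b_PLC : Pool.Agent.H33.HC.T_PLC :=
  Pool.Agent.H38.HC.pf_PLC b_GSC b_HSC Pool.Agent.H33.HH.a_THB

theorem b_GA3C : Pool.Agent.H33.HC.T_GA3C :=
  Pool.Agent.H11.HC.pf_GA3C b_GSC b_HSC b_PLC Pool.Agent.H33.HH.a_LSM b_GA2C

theorem b_GAPC : Pool.Agent.H33.HC.T_GAPC :=
  Pool.Agent.H33.HC.GAPD.pf_GAPD b_GSC b_HSC b_GA1C b_GA2C b_GA3C Pool.Agent.H33.HH.a_IDF

theorem b_IDZ : Pool.Agent.H33.HC.T_IDZ :=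
  Pool.Agent.H45.HC.pf_IDZ Pool.Agent.H33.HH.a_IDC

theorem b_JIC : Pool.Agent.H33.HC.T_JIC :=
  Pool.Agent.H67.HC.pf_JIC b_GSC b_HSC

theorem b_IN1C : Pool.Agent.H33.HC.T_IN1C :=
  Pool.Agent.H20.HC.pf_IN1C b_GSC b_JIC b_IDZ Pool.Agent.H33.HH.a_IDF

theorem b_JDC : Pool.Agent.H33.HC.T_JDC :=
  Pool.Agent.H46.HC.pf_JDC b_GSC b_HSC

theorem b_INFC : Pool.Agent.H33.HC.T_INFC :=
  Pool.Agent.H12.HC.pf_INFC b_IN1C b_JDC Pool.Agent.H33.HH.a_HSU Pool.Agent.H33.HH.a_IDF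

theorem b_KXC : Pool.Agent.H33.HC.T_KXC :=
  Pool.Agent.H17.HC.pf_KXC b_GSC b_HSC Pool.Agent.H33.HH.a_THB

theorem b_OPS : Pool.Agent.H33.HC.T_OPS :=
  Pool.Agent.H69.HC.pf_OPS b_GSC Pool.Agent.H33.HH.a_IDF

theorem b_UNFC : Pool.Agent.H33.HC.T_UNFC :=
  Pool.Agent.H61.HC.pf_UNFC b_GSC b_HSC Pool.Agent.H33.HH.a_UN1 Pool.Agent.H33.HH.a_UN2
    Pool.Agent.H33.HH.a_NRM Pool.Agent.H33.HH.a_GA2

theorem b_RPTC : Pool.Agent.H33.HC.T_RPTC :=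
  Pool.Agent.H43.HC.pf_RPTC b_GSC b_KXC Pool.Agent.H33.HH.a_HSU Pool.Agent.H33.HH.a_HAB
    Pool.Agent.H33.HH.a_IDF

theorem b_ZCB : Pool.Agent.H33.HC.T_ZCB :=
  Pool.Agent.H36.HC.pf_ZCB Pool.Agent.H33.HH.a_CNT

theorem b_LWB : Pool.Agent.H33.HC.T_LWB :=
  Pool.Agent.H50.HC.pf_LWB

theorem b_YCB : Pool.Agent.H33.HC.T_YCB :=
  Pool.Agent.H49.HC.pf_YCB b_PSC b_LWB

theorem b_SH : Pool.Agent.H33.HC.T_SH :=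
  Pool.Agent.H33.HC.pf_SH Pool.Agent.H33.HH.a_HEX b_OPS b_UNFC b_GAPC b_INFC b_RPTC b_DAPC b_DDS
    b_COMC Pool.Agent.H33.HH.a_IDF Pool.Agent.H33.HH.a_ERS b_ZCB b_YCB b_CKB b_AR1 b_AR2
    Pool.Agent.H33.HH.a_NRM

theorem b_QFC : Pool.Agent.H33.HC.T_QFC :=
  Pool.Agent.H33.HC.pf_QFC Pool.Agent.H33.HH.a_ORH Pool.Agent.H33.HH.a_KGC Pool.Agent.H33.HH.a_PHN
    Pool.Agent.H33.HH.a_NRM

theorem b_PSC2 : Pool.Agent.H33.HC.T_PSC2 :=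
  Pool.Agent.H60.HC.pf_PSC2 b_QFC Pool.Agent.H33.HH.a_IEX Pool.Agent.H33.HH.a_PHN
    Pool.Agent.H33.HH.a_NRM

theorem b_PSS : Pool.Agent.H33.HC.T_PSS :=
  Pool.Agent.H59.HC.pf_PSS b_PSC2

theorem b_SGE : Pool.Agent.H33.HC.T_SGE :=
  Pool.Agent.H49.HC.pf_SGE

theorem b_SDC : Pool.Agent.H33.HC.T_SDC :=
  Pool.Agent.H49.HC.pf_SDC Pool.Agent.H33.HH.a_TWS Pool.Agent.H33.HH.a_CPM

theorem b_ZEX : Pool.Agent.H33.HC.T_ZEX :=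
  Pool.Agent.H47.HC.pf_ZEX Pool.Agent.H33.HH.a_NRM Pool.Agent.H37.CV.a_EN

theorem b_SSC2 : Pool.Agent.H33.HC.T_SSC2 :=
  Pool.Agent.H97.HC.pf_SSC2 b_SDC b_ZEX Pool.Agent.H37.CV.a_ZK

theorem b_MVC : Pool.Agent.H33.HC.T_MVC :=
  Pool.Agent.H59.HC.pf_MVC b_BQS b_BSZ b_SGE b_SSC2 Pool.Agent.H33.HH.a_IDF Pool.Agent.H37.CV.a_CX
    Pool.Agent.H37.CV.a_DV

theorem b_MSC : Pool.Agent.H33.HC.T_MSC :=
  Pool.Agent.H49.HC.pf_MSC b_SH b_PSS b_BQS b_CNJ b_MVC Pool.Agent.H65.CRG.Base.c_BB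
    Pool.Agent.H33.HH.a_GEX Pool.Agent.H33.HH.a_IEX Pool.Agent.H33.HH.a_PHM
    Pool.Agent.H33.HH.a_NPR Pool.Agent.H33.HH.a_PHN

theorem b_LEC : Pool.Agent.H33.HC.T_LEC :=
  Pool.Agent.H86.HC.pf_LEC b_SH b_PSS b_BQS b_CNJ b_MVC Pool.Agent.H65.CRG.Base.c_BB
    Pool.Agent.H65.CRG.d_DB Pool.Agent.H33.HH.a_GEX b_MSC Pool.Agent.H33.HH.a_PHM
    Pool.Agent.H33.HH.a_NPR b_GSC Pool.Agent.H33.HH.a_NRM Pool.Agent.H33.HH.a_IEX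
    Pool.Agent.H33.HH.a_CNT

end Pool.Agent.H33.HC
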