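import Pool.Agent.H33.HH.TD
import Pool.Agent.H65.CRZ.Defs2

/-!
# The second moment with complex shifts of all ray class characters of an imaginary quadratic field:
definitions (MP_347b49_nt, page H33_CRIT.md in the team store)
-/

set_option autoImplicit false

open NumberField Complex Filter Topology MeasureTheory
open scoped ContDiff nonZeroDivisors

namespace Pool.Agent.H33.HC

open Pool.Agent.H28.RC Pool.Agent.H37.CV Pool.Agent.H33.HH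

noncomputable section

/-! ### The weights -/

/-- `G_s(v) = (G(v) - 2^(s-1) G(v/2)) / (1 - 2^(s-1))`: the mean value against `v^(-s)` is zero -/
def Gs (G : ℝ → ℝ) (s : ℂ) (v : ℝ) : ℂ :=
  ((G v : ℂ) - (2 : ℂ) ^ (s - 1) * (G (v / 2) : ℂ)) / (1 - (2 : ℂ) ^ (s - 1))

/-- `η(v) v^(-s)` -/
def Hs (H : ℝ → ℝ) (s : ℂ) (v : ℝ) : ℂ := (H v : ℂ) * (v : ℂ) ^ (1 / 2 - s)

/-- the coefficient `t^(-s) G_s(t / Z)` -/
def gc (G : ℝ → ℝ) (Z : ℝ) (s : ℂ) (t : ℝ) : ℂ := (t : ℂ) ^ (-s) * Gs G s (t / Z)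

/-- near the critical line -/
def Nr (s : ℂ) : Prop := |s.re - 1 / 2| ≤ 1 / 16

/-- the point `1/2 + α + i u` -/
def se (α : ℂ) (u : ℝ) : ℂ := 1 / 2 + α + u * I

/-- the shifts are small -/
def Ad (C₀ Q : ℝ) (α β : ℂ) : Prop := ‖α‖ ≤ C₀ / Real.log Q ∧ ‖β‖ ≤ C₀ / Real.log Q

/-- functions with a transition at `T`, complex values -/
structure SlC (T A : ℝ) (f f' : ℝ → ℂ) : Prop where
  der : ∀ t, 0 < t → HasDerivAt f (f' t) t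
  con : ContinuousOn f' (Set.Ioi 0)
  n1 : ∀ t, 0 < t → t ≤ T → ‖f t - 1‖ ≤ A * (t / T) ^ (1 / 4 : ℝ) ∧
    ‖f' t‖ ≤ A / t * (t / T) ^ (1 / 4 : ℝ)
  n2 : ∀ t, T ≤ t → ‖f t‖ ≤ A * (t / T) ^ (-(1 / 4) : ℝ) ∧
    ‖f' t‖ ≤ A / t * (t / T) ^ (-(1 / 4) : ℝ)

/-- the regularised Mellin transform at `-w` of a function with a transition at `1` -/
def Lw (w : ℂ) (f : ℝ → ℂ) : ℂ :=
  (∫ v in Set.Ioc (0 : ℝ) 1, (f v - 1) * (v : ℂ) ^ (-1 - w)) +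
    ∫ v in Set.Ioi (1 : ℝ), f v * (v : ℂ) ^ (-1 - w)

/-! ### The mollified sums -/

section NF

variable {K : Type} [Field K] [NumberField K]

open scoped Classical in
/-- the sum over the ideals prime to the small primes, complex values -/
def sumZ (P : ℝ) (f : Ideal (𝓞 K) → ℂ) : ℂ := ∑' I : NI K, if Cp P I.1 then f I.1 else 0

open scoped Classical in
/-- the coefficients of the mollified sum -/
def cfs (P y Z : ℝ) (G : ℝ → ℝ) (s z : ℂ) (n : Ideal (𝓞 K)) : ℂ :=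
  if n ≠ ⊥ ∧ Cp P n then ∑ S ∈ (DP K P y).filter (fun S => idS S ∣ n),
    (lm K P y S : ℂ) * ((nS np S : ℝ) : ℂ) ^ (-z) * gc G Z s (nm n / nS np S) else 0

/-- the bilinear form with the kernel -/
def QQ2 (f : Ideal (𝓞 K)) (c c' : Ideal (𝓞 K) → ℂ) : ℂ :=
  ∑ᶠ p : Ideal (𝓞 K) × Ideal (𝓞 K), (kap f p.1 p.2 : ℂ) * c p.1 * c' p.2

/-- the second moment with shifts -/
def SMs (P y Z Q : ℝ) (W G : ℝ → ℝ) (k : Ideal (𝓞 K)) (α β : ℂ) (u : ℝ) : ℂ :=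
  sumZ P fun q => ((W (nm q / Q) * nm q : ℝ) : ℂ) *
    QQ2 (k * q) (cfs P y Z G (se α u) (se 0 u)) (cfs P y Z G (se β (-u)) (se 0 (-u)))

/-- the form with the kernel for the pair `a`, `b` -/
def Qa2 (P Z : ℝ) (G : ℝ → ℝ) (s s' : ℂ) (f a b : Ideal (𝓞 K)) : ℂ :=
  sumZ P fun m => sumZ P fun n =>
    (kap f (a * m) (b * n) : ℂ) * (gc G Z s (nm m) * gc G Z s' (nm n))

/-- the sum of the form over the conductors -/
def Ba2 (P Z Q : ℝ) (W G : ℝ → ℝ) (k a b : Ideal (𝓞 K)) (s s' : ℂ) : ℂ :=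
  sumZ P fun q => ((W (nm q / Q) * nm q : ℝ) : ℂ) * Qa2 P Z G s s' (k * q) a b

/-- the off-diagonal sum -/
def Oa2 (P Z Q : ℝ) (W G H : ℝ → ℝ) (k a b : Ideal (𝓞 K)) (α β : ℂ) (u : ℝ) : ℂ :=
  sumZ P fun n => ∑' l : NI K, ∑' γ : Ga P a (b * n) (k * l.1),
    ((nm a : ℝ) : ℂ) ^ α * ((nm b : ℝ) : ℂ) ^ (-1 - α) * ((nm n : ℝ) : ℂ) ^ (-1 - (α + β)) *
    Gs G (se β (-u)) (nm n / Z) *
    (Hs H (se α u) (‖em K γ.1‖ ^ 2) *
      Gs G (se α u) (‖em K γ.1‖ ^ 2 * (nm b * nm n) / (nm a * Z))) *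
    ((Q * w1 W (‖em K γ.1 - 1‖ ^ 2 * (nm b * nm n) / (nm k * nm l.1 * Q)) : ℝ) : ℂ)

/-- the diagonal sum without the total weight -/
def Dd2 (P Z : ℝ) (G : ℝ → ℝ) (a b : Ideal (𝓞 K)) (α β : ℂ) (u : ℝ) : ℂ :=
  ((nm a : ℝ) : ℂ) ^ α * ((nm b : ℝ) : ℂ) ^ (-1 - α) *
    sumZ P fun m => sumZ P fun n => open scoped Classical in
      if a * m = b * n then ((nm n : ℝ) : ℂ) ^ (-1 - (α + β)) *
        (Gs G (se α u) (nm m / Z) * Gs G (se β (-u)) (nm n / Z)) else 0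

/-- the sum over `n` and the divisors `r = R₁ R₀` of `a` times the small primes -/
def Na2 (P Z Q : ℝ) (G : ℝ → ℝ) (k : Ideal (𝓞 K)) (S : Finset (PrI K)) (b : Ideal (𝓞 K))
    (α β : ℂ) (u : ℝ) (f : ℝ → ℝ → ℂ) : ℂ :=
  ((2 / (sd K * nm k) : ℝ) : ℂ) * (((nS np S : ℝ) : ℂ) ^ (α - 1) * ((nm b : ℝ) : ℂ) ^ (-α)) *
    sumZ P fun n => ((nm n : ℝ) : ℂ) ^ (-(α + β)) * Gs G (se β (-u)) (nm n / Z) *
    ∑ R₁ ∈ S.powerset, ∑ R₀ ∈ (SP K P).powerset,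
      ((ha R₁ (b * n) * hk P k R₀ * (Q / (nS np R₁ * nS np R₀)) : ℝ) : ℂ) *
      f (nm b * nm n / (nm k * (nS np R₁ * nS np R₀) * Q)) (nm b * nm n / (nS np S * Z))

end NF

/-! ### Integrals over the plane -/

section NF2

variable (K : Type) [Field K] [NumberField K]

/-- the integral over the plane with the limit -/
def Jc (G H : ℝ → ℝ) (s : ℂ) (t : ℝ) : ℂ :=
  (Real.pi : ℂ) * ∫ v in Set.Ioi (0 : ℝ), Hs H s v * Gs G s (v * t)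

/-- its smooth continuation -/
def Jx (G H : ℝ → ℝ) (s : ℂ) (t : ℝ) : ℂ :=
  -((Real.pi : ℂ) * ∫ v in Set.Ioc (0 : ℝ) 2,
    ((1 - v ^ (1 / 2 : ℝ) * H v : ℝ) : ℂ) * (v : ℂ) ^ (-s) * Gs G s (v * t))

/-- the integral over the plane with the difference -/
def Kc (W G H : ℝ → ℝ) (s : ℂ) (x t : ℝ) : ℂ :=
  ∫ g : ℂ, Hs H s (‖g‖ ^ 2) * Gs G s (‖g‖ ^ 2 * t) * (Rr K W (‖g - 1‖ ^ 2 * x) : ℂ)

/-- the same without the factor `G` -/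
def K0c (W H : ℝ → ℝ) (s : ℂ) (x : ℝ) : ℂ :=
  ∫ g : ℂ, Hs H s (‖g‖ ^ 2) * (Rr K W (‖g - 1‖ ^ 2 * x) : ℂ)

/-- the transition function -/
def psc (W H : ℝ → ℝ) (s : ℂ) (x : ℝ) : ℂ :=
  1 + ((2 * x / Real.pi * (wu K / (hc K * W1 W)) : ℝ) : ℂ) * K0c K W H s x

/-- the constant of the sums over the ideals prime to the small primes -/
def Zc (P : ℝ) (w : ℂ) : ℂ :=
  (rk K P : ℂ) * (1 + 1 / w) +
    (1 + w) * ∫ x in Set.Ioi (1 : ℝ), ((cn K P x - rk K P * x : ℝ) : ℂ) * (x : ℂ) ^ (-2 - w)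

/-- the constant of the dual term -/
def Yc (P : ℝ) (W H : ℝ → ℝ) (s w : ℂ) : ℂ := (rk K P : ℂ) * (1 / w - Lw w (psc K W H s))

end NF2

section NF3

variable {K : Type} [Field K] [NumberField K]

/-- the sum over the small primes -/
def ck (P : ℝ) (k : Ideal (𝓞 K)) (w : ℂ) : ℂ :=
  ∑ R₀ ∈ (SP K P).powerset, (hk P k R₀ : ℂ) * ((nS np R₀ : ℝ) : ℂ) ^ (-w)

/-- the main term of the off-diagonal sum, with the transition function -/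
def Ea2 (P Z Q : ℝ) (W G H : ℝ → ℝ) (k : Ideal (𝓞 K)) (S : Finset (PrI K))
    (b : Ideal (𝓞 K)) (α β : ℂ) (u : ℝ) : ℂ :=
  ((1 / 2 * rh K * W1 W * Q ^ 2 : ℝ) : ℂ) *
    (((nS np S : ℝ) : ℂ) ^ (α - 1) * ((nm b : ℝ) : ℂ) ^ (-1 - α)) *
    sumZ P fun n => ((nm n : ℝ) : ℂ) ^ (-1 - (α + β)) *
    (Gs G (se β (-u)) (nm n / Z) * Gs G (se α u) (nm b * nm n / (nS np S * Z))) *
    ∑ R₁ ∈ S.powerset, ∑ R₀ ∈ (SP K P).powerset, ((ha R₁ (b * n) * hk P k R₀ : ℝ) : ℂ) *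
      psc K W H (se α u) (nm b * nm n / (nm k * (nS np R₁ * nS np R₀) * Q))

open scoped Classical in
/-- the first quadratic form -/
def U1 (α β : ℂ) (S T : Finset (PrI K)) : ℂ :=
  ((nS np S : ℝ) : ℂ) ^ (-(1 + β)) * ((nS np T : ℝ) : ℂ) ^ (-(1 + α)) *
    ((nS np (S ∩ T) : ℝ) : ℂ) ^ (1 + α + β)

open scoped Classical in
/-- the second quadratic form -/
def U2 (α β : ℂ) (S T : Finset (PrI K)) : ℂ :=
  ((nS np S : ℝ) : ℂ) ^ (-(1 - α)) * ((nS np T : ℝ) : ℂ) ^ (-(1 - β)) *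
    ∑ E ∈ (S ∩ T).powerset, ((fS np E : ℝ) : ℂ) * ((nS np E : ℝ) : ℂ) ^ (-(α + β))

end NF3

end

end Pool.Agent.H33.HC
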