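import Pool.Agent.H33.HC.SH0

/-!
# The second moment with shifts: assembly (MP_347b49_nt)
-/

set_option autoImplicit false

open NumberField Complex Filter Topology MeasureTheory
open scoped ContDiff nonZeroDivisors

namespace Pool.Agent.H33.HC

open Pool.Agent.H28.RC Pool.Agent.H37.CV Pool.Agent.H33.HH Pool.Agent.H65.CRZ

noncomputable section

/-- one pair: the form is the main term up to the error terms. -/
theorem one_pairC (hU : T_UNFC) (hGAP : T_GAPC) (hINF : T_INFC) (hRPT : T_RPTC) (hDAP : T_DAPC)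
    (hDDS : T_DDS) (hCOM : T_COMC) (hI : T_IDF) (K : Type) [Field K] [NumberField K] [IQ K]
    (P : ℝ) (W G H : ℝ → ℝ) (k : Ideal (𝓞 K)) (θ e C₀ : ℝ) (hP : (SP K P).Nonempty) (hW : IsW W)
    (hW1 : 0 < W1 W) (hG : IsG G) (hH : IsH H) (hk : Sm' P k) (hp : Par θ e) (hC₀ : 0 < C₀) :
    ∃ δ C B Q₁ : ℝ, 0 < δ ∧ 0 ≤ C ∧ 0 ≤ B ∧ 2 ≤ Q₁ ∧ ∀ Q : ℝ, Q₁ ≤ Q → ∀ S ∈ DP K P (Q ^ θ),
    ∀ T ∈ DP K P (Q ^ θ), ∀ (α β : ℂ) (u : ℝ), Ad C₀ Q α β → α + β ≠ 0 →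
    ‖((nm (idS S) : ℝ) : ℂ) ^ (-se 0 u) * ((nm (idS T) : ℝ) : ℂ) ^ (-se 0 (-u)) *
      Ba2 P (Q ^ (1 + e)) Q W G k (idS S) (idS T) (se α u) (se β (-u)) -
      Mp P Q W H k α β u S T‖ ≤ C * (1 + |u|) ^ B * Er Q δ S T := by
  obtain ⟨C2, B2, q2, hC2, hB2, hq2, h2⟩ := hGAP K P W G H k θ e C₀ hP hW hG hH hk hp hC₀
  obtain ⟨C4, d4, q4, hC4, hd4, hq4, h4⟩ := hINF K P W G H k θ e C₀ hP hW hG hH hk hp hC₀
  obtain ⟨d5, C5, q5, hd5, hC5, hq5, h5⟩ := hRPT K P W G H k θ e C₀ hW hW1 hG hH hk hp hC₀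
  obtain ⟨C1, d1, q1, hC1, hd1, hq1, h1⟩ := hDAP K P W G θ e C₀ hW hG hp hC₀
  obtain ⟨d6, C6, B6, q6, hd6, hC6, hB6, hq6, h6⟩ :=
    hCOM K P W G H k θ e C₀ hW hW1 hG hH hk hp hC₀
  obtain ⟨δ, hδ⟩ : ∃ δ : ℝ, δ = min (min d1 d5) (min d6 (min d4 1)) := ⟨_, rfl⟩
  have hδ0 : 0 < δ := by
    rw [hδ]; exact lt_min (lt_min hd1 hd5) (lt_min hd6 (lt_min hd4 one_pos))
  have hδ1 : δ ≤ d1 := by rw [hδ]; exact (min_le_left _ _).trans (min_le_left _ _)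
  have hδ5 : δ ≤ d5 := by rw [hδ]; exact (min_le_left _ _).trans (min_le_right _ _)
  have hδ6 : δ ≤ d6 := by rw [hδ]; exact (min_le_right _ _).trans (min_le_left _ _)
  have hδ4 : δ ≤ d4 := by
    rw [hδ]; exact (min_le_right _ _).trans ((min_le_right _ _).trans (min_le_left _ _))
  have hδo : δ ≤ 1 := by
    rw [hδ]; exact (min_le_right _ _).trans ((min_le_right _ _).trans (min_le_right _ _))
  obtain ⟨B, hB⟩ : ∃ B : ℝ, B = max B2 B6 := ⟨_, rfl⟩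
  have hBB2 : B2 ≤ B := by rw [hB]; exact le_max_left _ _
  have hBB6 : B6 ≤ B := by rw [hB]; exact le_max_right _ _
  have hB0 : 0 ≤ B := hB2.trans hBB2
  refine ⟨δ, C1 + 2 * C2 + C4 + 2 * C5 + 2 * C6, B,
    max (max q1 q2) (max (max q4 q5) (max q6 (max 2 (Real.exp (16 * C₀))))), hδ0, by positivity,
    hB0, ?_, ?_⟩
  · exact (((le_max_left _ _).trans (le_max_right _ _)).trans (le_max_right _ _)).trans
      (le_max_right _ _)
  intro Q hQ S hS T hT α β u hAd hne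
  have Q1 : q1 ≤ Q := ((le_max_left _ _).trans (le_max_left _ _)).trans hQ
  have Q2 : q2 ≤ Q := ((le_max_right _ _).trans (le_max_left _ _)).trans hQ
  have Q4 : q4 ≤ Q := ((le_max_left _ _).trans ((le_max_left _ _).trans (le_max_right _ _))).trans hQ
  have Q5 : q5 ≤ Q := ((le_max_right _ _).trans ((le_max_left _ _).trans (le_max_right _ _))).trans hQ
  have Q678 : max q6 (max 2 (Real.exp (16 * C₀))) ≤ Q :=
    ((le_max_right _ _).trans (le_max_right _ _)).trans hQ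
  have Q6 : q6 ≤ Q := (le_max_left _ _).trans Q678
  have Q7 : 2 ≤ Q := ((le_max_left _ _).trans (le_max_right _ _)).trans Q678
  have Q8 : Real.exp (16 * C₀) ≤ Q := ((le_max_right _ _).trans (le_max_right _ _)).trans Q678
  have hQ1 : 1 ≤ Q := by linarith
  have hQ0 : 0 < Q := by linarith
  have hL16 : 16 * C₀ ≤ Real.log Q := by
    rw [Real.le_log_iff_exp_le hQ0]; exact Q8
  have hN1 : Nr (se α u) := Nr_se u (by linarith) hL16 hAd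
  have hN2 : Nr (se β (-u)) := Nr_se (-u) (by linarith) hL16 (Ad_symm hAd)
  have hZ : 0 < Q ^ (1 + e) := Real.rpow_pos_of_pos hQ0 _
  have hy : 1 ≤ Q ^ θ := Real.one_le_rpow hQ1 hp.θpos.le
  obtain ⟨hS0, hSc, hSn, hS1, -, -, -, -⟩ := hI K P (Q ^ θ) hy S hS
  obtain ⟨hT0, hTc, hTn, hT1, -, -, -, -⟩ := hI K P (Q ^ θ) hy T hT
  have a1 := h1 Q Q1 S hS T hT α β u hAd
  have a2 := h2 Q Q2 S hS T hT α β u hAd
  have a2' := h2 Q Q2 T hT S hS β α (-u) (Ad_symm hAd)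
  have a4 := h4 Q Q4 S hS T hT α β u hAd
  have a5 := h5 Q Q5 S hS T hT α β u hAd
  have a5' := h5 Q Q5 T hT S hS β α (-u) (Ad_symm hAd)
  have a6 := h6 Q Q6 S hS T hT α β u hAd hne
  have a6' := h6 Q Q6 T hT S hS β α (-u) (Ad_symm hAd) (by rwa [add_comm])
  rw [hDDS K P (Q ^ (1 + e)) G (idS S) (idS T) α β u hZ hG hS0 hT0 hN1 hN2] at a5'
  rw [Na2_add hZ hG k S (idS T) α β u] at a2
  rw [Na2_add hZ hG k T (idS S) β α (-u)] at a2'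
  rw [U1_symm, U2_symm, add_comm β α] at a6'
  rw [abs_neg] at a2' a6'
  rw [Er_symm S T] at a2' a5' a6'
  have hu : 1 ≤ 1 + |u| := by linarith [abs_nonneg u]
  have hub : 1 ≤ (1 + |u|) ^ B := Real.one_le_rpow hu hB0
  have hu2 : (1 + |u|) ^ B2 ≤ (1 + |u|) ^ B := Real.rpow_le_rpow_of_exponent_le hu hBB2
  have hu6 : (1 + |u|) ^ B6 ≤ (1 + |u|) ^ B := Real.rpow_le_rpow_of_exponent_le hu hBB6
  have hE0 := Er_nonneg (δ := δ) hQ0.le S T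
  have key := eight (hU K P (Q ^ (1 + e)) Q W G H hQ0 hZ hW hG hH (idS S) (idS T) k hS0 hT0 hSc
    hTc hk α β u hN1 hN2) (c := ((rk K P * W1 W * Q ^ 2 : ℝ) : ℂ))
    (w := ((W1 W * Q ^ 2 : ℝ) : ℂ))
    (E1 := Ea2 P (Q ^ (1 + e)) Q W G H k S (idS T) α β u)
    (E2 := Ea2 P (Q ^ (1 + e)) Q W G H k T (idS S) β α (-u))
    (A := (rk K P : ℂ) * Zc K P (α + β) * U1 α β S T)
    (B1 := (rh K : ℂ) * ck P k (α + β) * ((nm k * Q : ℝ) : ℂ) ^ (-(α + β)) *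
        Yc K P W H (se α u) (α + β) * U2 α β S T)
    (B2 := (rh K : ℂ) * ck P k (α + β) * ((nm k * Q : ℝ) : ℂ) ^ (-(α + β)) *
        Yc K P W H (se β (-u)) (α + β) * U2 α β S T)
    (by
      refine le_trans (le_of_eq (congrArg norm ?_)) a1
      push_cast
      ring) a2 a2' a4
    (by
      refine le_trans (le_of_eq (congrArg norm ?_)) a5
      push_cast
      ring)
    (by
      refine le_trans (le_of_eq (congrArg norm ?_)) a5'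
      push_cast
      ring)
    (by
      refine le_trans (le_of_eq (congrArg norm ?_)) a6
      push_cast
      ring)
    (by
      refine le_trans (le_of_eq (congrArg norm ?_)) a6'
      push_cast
      ring)
  have hM : Mp P Q W H k α β u S T = ((W1 W * Q ^ 2 : ℝ) : ℂ) *
      ((rk K P : ℂ) * Zc K P (α + β) * U1 α β S T -
        ((rh K : ℂ) * ck P k (α + β) * ((nm k * Q : ℝ) : ℂ) ^ (-(α + β)) *
        Yc K P W H (se α u) (α + β) * U2 α β S T +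
        (rh K : ℂ) * ck P k (α + β) * ((nm k * Q : ℝ) : ℂ) ^ (-(α + β)) *
        Yc K P W H (se β (-u)) (α + β) * U2 α β S T) / 2) := by
    unfold Mp
    ring
  rw [hM]
  refine key.trans ?_
  have m1 : C1 * Er Q d1 S T ≤ C1 * ((1 + |u|) ^ B * Er Q δ S T) := by
    refine mul_le_mul_of_nonneg_left ?_ hC1
    exact (Er_mono hQ1 hδ1 S T).trans (le_mul_of_one_le_left hE0 hub)
  have m4 : C4 * Er Q d4 S T ≤ C4 * ((1 + |u|) ^ B * Er Q δ S T) := by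
    refine mul_le_mul_of_nonneg_left ?_ hC4
    exact (Er_mono hQ1 hδ4 S T).trans (le_mul_of_one_le_left hE0 hub)
  have m5 : C5 * Er Q d5 S T ≤ C5 * ((1 + |u|) ^ B * Er Q δ S T) := by
    refine mul_le_mul_of_nonneg_left ?_ hC5
    exact (Er_mono hQ1 hδ5 S T).trans (le_mul_of_one_le_left hE0 hub)
  have m2 : C2 * (1 + |u|) ^ B2 * Er Q 1 S T ≤ C2 * ((1 + |u|) ^ B * Er Q δ S T) := by
    rw [mul_assoc]
    refine mul_le_mul_of_nonneg_left ?_ hC2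
    exact mul_le_mul hu2 (Er_mono hQ1 hδo S T) (Er_nonneg hQ0.le S T) (by positivity)
  have m6 : C6 * (1 + |u|) ^ B6 * Er Q d6 S T ≤ C6 * ((1 + |u|) ^ B * Er Q δ S T) := by
    rw [mul_assoc]
    refine mul_le_mul_of_nonneg_left ?_ hC6
    exact mul_le_mul hu6 (Er_mono hQ1 hδ6 S T) (Er_nonneg hQ0.le S T) (by positivity)
  have e9 : (C1 + 2 * C2 + C4 + 2 * C5 + 2 * C6) * (1 + |u|) ^ B * Er Q δ S T =
      C1 * ((1 + |u|) ^ B * Er Q δ S T) + 2 * (C2 * ((1 + |u|) ^ B * Er Q δ S T)) +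
      C4 * ((1 + |u|) ^ B * Er Q δ S T) + 2 * (C5 * ((1 + |u|) ^ B * Er Q δ S T)) +
      2 * (C6 * ((1 + |u|) ^ B * Er Q δ S T)) := by ring
  rw [e9]
  linarith

/-- the main terms are bounded -/
theorem FF_bd {C₀ L ℓ : ℝ} {α β : ℂ} (hL : 0 < L) (hℓ : 0 ≤ ℓ) (hℓL : ℓ ≤ L) (hC : 0 ≤ C₀)
    (hα : ‖α‖ ≤ C₀ / L) (hβ : ‖β‖ ≤ C₀ / L) : ‖FF α β ℓ‖ ≤ (1 + C₀ + C₀ ^ 2) * ℓ := by
  unfold FF
  have hx : C₀ / L * ℓ ≤ C₀ := by
    rw [div_mul_eq_mul_div, div_le_iff₀ hL]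
    exact mul_le_mul_of_nonneg_left hℓL hC
  have h0 : 0 ≤ C₀ / L * ℓ := by positivity
  have h1 : ‖(α + β) * (ℓ : ℂ) ^ 2 / 2‖ ≤ C₀ * ℓ := by
    rw [norm_div, norm_mul, norm_pow, Complex.norm_real, Real.norm_of_nonneg hℓ]
    have e1 : ‖(2 : ℂ)‖ = 2 := by simp
    rw [e1]
    have e2 : ‖α + β‖ ≤ 2 * (C₀ / L) := (norm_add_le _ _).trans (by linarith)
    have e3 : ‖α + β‖ * ℓ ^ 2 ≤ 2 * (C₀ / L) * ℓ ^ 2 :=
      mul_le_mul_of_nonneg_right e2 (by positivity)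
    have e4 : C₀ / L * ℓ * ℓ ≤ C₀ * ℓ := mul_le_mul_of_nonneg_right hx hℓ
    rw [div_le_iff₀ (by norm_num)]
    nlinarith
  have h2 : ‖α * β * (ℓ : ℂ) ^ 3 / 3‖ ≤ C₀ ^ 2 * ℓ := by
    rw [norm_div, norm_mul, norm_mul, norm_pow, Complex.norm_real, Real.norm_of_nonneg hℓ]
    have e1 : ‖(3 : ℂ)‖ = 3 := by simp
    rw [e1]
    have e2 : ‖α‖ * ‖β‖ ≤ (C₀ / L) * (C₀ / L) := by gcongr
    have e3 : ‖α‖ * ‖β‖ * ℓ ^ 3 ≤ (C₀ / L) * (C₀ / L) * ℓ ^ 3 :=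
      mul_le_mul_of_nonneg_right e2 (by positivity)
    have e4 : (C₀ / L * ℓ) * (C₀ / L * ℓ) ≤ C₀ * C₀ := by gcongr
    have e5 : (C₀ / L * ℓ) * (C₀ / L * ℓ) * ℓ ≤ C₀ * C₀ * ℓ := mul_le_mul_of_nonneg_right e4 hℓ
    have e6 : 0 ≤ C₀ * C₀ * ℓ := by positivity
    rw [div_le_iff₀ (by norm_num)]
    nlinarith
  have h3 : ‖(ℓ : ℂ)‖ = ℓ := by rw [Complex.norm_real, Real.norm_of_nonneg hℓ]
  refine (norm_add_le _ _).trans ?_
  have h4 := norm_add_le (ℓ : ℂ) ((α + β) * (ℓ : ℂ) ^ 2 / 2)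
  rw [h3] at h4
  nlinarith

theorem norm_exp_le {z : ℂ} {C : ℝ} (h : ‖z‖ ≤ C) : ‖cexp z‖ ≤ Real.exp C := by
  rw [Complex.norm_exp]
  exact Real.exp_le_exp.2 ((Complex.re_le_norm z).trans h)

theorem norm_exp_sub_one {z : ℂ} {C : ℝ} (h : ‖z‖ ≤ C) :
    ‖cexp z - 1‖ ≤ (Real.exp C + 2) * ‖z‖ := by
  by_cases h1 : ‖z‖ ≤ 1
  · have h2 := Complex.norm_exp_sub_one_le h1
    have h3 : 0 ≤ Real.exp C * ‖z‖ := by positivity
    linarith
  · have h1' : 1 < ‖z‖ := not_le.1 h1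
    have h2 : ‖cexp z - 1‖ ≤ Real.exp C + 1 := by
      refine (norm_sub_le _ _).trans ?_
      rw [norm_one]
      linarith [norm_exp_le h]
    have h3 : 0 < Real.exp C := Real.exp_pos C
    nlinarith

end

end Pool.Agent.H33.HC
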