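import Pool.Agent.H33.HC.TB
import Pool.Agent.H33.HH.SMF

/-!
# The second moment with shifts: assembly (MP_347b49_nt), preparations
-/

set_option autoImplicit false

open NumberField Complex Filter Topology MeasureTheory
open scoped ContDiff nonZeroDivisors

namespace Pool.Agent.H33.HC

open Pool.Agent.H28.RC Pool.Agent.H37.CV Pool.Agent.H33.HH Pool.Agent.H65.CRZ

noncomputable section

section sums

variable {K : Type} [Field K] [NumberField K]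

theorem sumZ_summable {P X : ℝ} {f : Ideal (𝓞 K) → ℂ} (hf : ∀ I, X ≤ nm I → f I = 0) :
    Summable (fun I : NI K => open scoped Classical in if Cp P I.1 then f I.1 else 0) := by
  classical
  refine summable_of_hasFiniteSupport ((fin_nm (K := K) X).subset ?_)
  intro I hI
  by_contra h
  have h' : X ≤ nm I.1 := not_lt.mp h
  apply hI
  show (if Cp P I.1 then f I.1 else 0) = 0
  rw [hf _ h']
  simp

theorem sumZ_add {P X : ℝ} {f g : Ideal (𝓞 K) → ℂ} (hf : ∀ I, X ≤ nm I → f I = 0)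
    (hg : ∀ I, X ≤ nm I → g I = 0) :
    sumZ P (fun I => f I + g I) = sumZ P f + sumZ P g := by
  classical
  unfold sumZ
  rw [← (sumZ_summable (P := P) hf).tsum_add (sumZ_summable (P := P) hg)]
  refine tsum_congr fun I => ?_
  by_cases h : Cp P I.1 <;> simp [h]

theorem sumZ_congr {P : ℝ} {f g : Ideal (𝓞 K) → ℂ} (h : ∀ I, I ≠ ⊥ → Cp P I → f I = g I) :
    sumZ P f = sumZ P g := by
  classical
  unfold sumZ
  refine tsum_congr fun I => ?_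
  by_cases h1 : Cp P I.1
  · simp [h1, h I.1 I.2 h1]
  · simp [h1]

theorem Gs_zero {G : ℝ → ℝ} (hG : IsG G) (s : ℂ) {v : ℝ} (hv : 6 ≤ v) : Gs G s v = 0 := by
  unfold Gs
  rw [hG.high v (by linarith), hG.high (v / 2) (by linarith)]
  simp

theorem Gs_nm_zero {G : ℝ → ℝ} (hG : IsG G) {Z : ℝ} (hZ : 0 < Z) (s : ℂ) {I : Ideal (𝓞 K)}
    (h : 6 * Z ≤ nm I) : Gs G s (nm I / Z) = 0 :=
  Gs_zero hG s (by rw [le_div_iff₀ hZ]; exact h)

theorem Na2_add {P Z Q : ℝ} (hZ : 0 < Z) {G : ℝ → ℝ} (hG : IsG G) (k : Ideal (𝓞 K))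
    (S : Finset (PrI K)) (b : Ideal (𝓞 K)) (α β : ℂ) (u : ℝ) (f g : ℝ → ℝ → ℂ) :
    Na2 P Z Q G k S b α β u (fun x t => f x t + g x t) =
      Na2 P Z Q G k S b α β u f + Na2 P Z Q G k S b α β u g := by
  unfold Na2
  rw [← mul_add]
  congr 1
  rw [← sumZ_add (X := 6 * Z)]
  · refine sumZ_congr fun n _ _ => ?_
    rw [← mul_add, ← Finset.sum_add_distrib]
    congr 1
    refine Finset.sum_congr rfl fun R₁ _ => ?_
    rw [← Finset.sum_add_distrib]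
    refine Finset.sum_congr rfl fun R₀ _ => ?_
    ring
  · intro I h
    rw [Gs_nm_zero hG hZ _ h]
    simp
  · intro I h
    rw [Gs_nm_zero hG hZ _ h]
    simp

theorem U1_symm (α β : ℂ) (S T : Finset (PrI K)) : U1 β α T S = U1 α β S T := by
  classical
  unfold U1
  rw [Finset.inter_comm, show (1 : ℂ) + β + α = 1 + α + β by ring]
  ring

theorem U2_symm (α β : ℂ) (S T : Finset (PrI K)) : U2 β α T S = U2 α β S T := by
  classical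
  unfold U2
  rw [Finset.inter_comm, add_comm β α]
  ring

theorem Ad_symm {C₀ Q : ℝ} {α β : ℂ} (h : Ad C₀ Q α β) : Ad C₀ Q β α := ⟨h.2, h.1⟩

/-- the main term for one pair -/
def Mp (P Q : ℝ) (W H : ℝ → ℝ) (k : Ideal (𝓞 K)) (α β : ℂ) (u : ℝ) (S T : Finset (PrI K)) : ℂ :=
  ((W1 W * Q ^ 2 : ℝ) : ℂ) * ((rk K P : ℂ) * Zc K P (α + β) * U1 α β S T -
    (rh K : ℂ) * ck P k (α + β) * ((nm k * Q : ℝ) : ℂ) ^ (-(α + β)) *
      ((Yc K P W H (se α u) (α + β) + Yc K P W H (se β (-u)) (α + β)) / 2) * U2 α β S T)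

end sums

/-- points near the critical line -/
theorem Nr_se {C₀ Q : ℝ} {α β : ℂ} (u : ℝ) (hQ : 1 < Q) (hC : 16 * C₀ ≤ Real.log Q)
    (h : Ad C₀ Q α β) : Nr (se α u) := by
  have hL : 0 < Real.log Q := Real.log_pos hQ
  unfold Nr se
  have h1 : ((1 : ℂ) / 2 + α + u * I).re - 1 / 2 = α.re := by
    simp
  rw [h1]
  have h2 := (Complex.abs_re_le_norm α).trans h.1
  refine h2.trans ?_
  rw [div_le_iff₀ hL]
  linarith

/-- eight small terms -/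
theorem eight {T1 TW c D O1 O2 J1 J2 K1 K2 E1 E2 A B1 B2 w : ℂ} {e1 e2 e3 e4 e5 e6 e7 e8 : ℝ}
    (hT : T1 = TW * D + O1 + O2) (h1 : ‖(TW - c) * D‖ ≤ e1) (h2 : ‖O1 - (J1 + K1)‖ ≤ e2)
    (h3 : ‖O2 - (J2 + K2)‖ ≤ e3) (h4 : ‖J1 + J2‖ ≤ e4) (h5 : ‖K1 - (E1 - c / 2 * D)‖ ≤ e5)
    (h6 : ‖K2 - (E2 - c / 2 * D)‖ ≤ e6) (h7 : ‖E1 - w / 2 * (A - B1)‖ ≤ e7)
    (h8 : ‖E2 - w / 2 * (A - B2)‖ ≤ e8) :
    ‖T1 - w * (A - (B1 + B2) / 2)‖ ≤ e1 + e2 + e3 + e4 + e5 + e6 + e7 + e8 := by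
  have h : T1 - w * (A - (B1 + B2) / 2) = (TW - c) * D + (O1 - (J1 + K1)) + (O2 - (J2 + K2)) +
      (J1 + J2) + (K1 - (E1 - c / 2 * D)) + (K2 - (E2 - c / 2 * D)) +
      (E1 - w / 2 * (A - B1)) + (E2 - w / 2 * (A - B2)) := by
    rw [hT]
    ring
  rw [h]
  refine (norm_add_le _ _).trans (add_le_add ?_ h8)
  refine (norm_add_le _ _).trans (add_le_add ?_ h7)
  refine (norm_add_le _ _).trans (add_le_add ?_ h6)
  refine (norm_add_le _ _).trans (add_le_add ?_ h5)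
  refine (norm_add_le _ _).trans (add_le_add ?_ h4)
  refine (norm_add_le _ _).trans (add_le_add ?_ h3)
  exact (norm_add_le _ _).trans (add_le_add h1 h2)

/-- the analysis of the main terms -/
theorem main_est {w X1 X2 F1 F2 Z κ p E Y : ℂ} {r ℓ L c θ C CF η v : ℝ} (hr : 0 < r)
    (hL : 0 < L) (hc : 0 < c) (hθ : 0 < θ) (hℓ : ℓ = θ * L) (hC : 0 ≤ C) (hCF : 0 ≤ CF)
    (hη : 0 ≤ η) (hη1 : η ≤ 1) (hv : 1 ≤ v) (hw1 : c / L ≤ ‖w‖) (hw2 : ‖w‖ ≤ 1)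
    (h1 : ‖((r * ℓ ^ 2 : ℝ) : ℂ) * X1 - F1‖ ≤ η * ℓ)
    (h2 : ‖((r * ℓ ^ 2 : ℝ) : ℂ) * X2 - F2‖ ≤ η * ℓ) (hF1 : ‖F1‖ ≤ CF * ℓ) (hF2 : ‖F2‖ ≤ CF * ℓ)
    (hZ : ‖Z - r / w‖ ≤ C) (hκ : ‖κ - r‖ ≤ C * ‖w‖) (hp : ‖p - E‖ ≤ C * ‖w‖) (hE : ‖E‖ ≤ C)
    (hY : ‖Y - r / w‖ ≤ C * v) :
    ‖(r * Z * X1 - κ * p * Y * X2) - r * (1 / (w * (ℓ : ℂ) ^ 2) * (F1 - E * F2))‖ ≤
      (C * (CF + 1) + (2 * C * C * (r + C) + r * C * (r + C) + r * C * C) * ((CF + 1) / r)) *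
        (v / ℓ) + r * (1 + C) / (c * θ) * η := by
  have hℓ0 : 0 < ℓ := by rw [hℓ]; positivity
  have hcL : 0 < c / L := by positivity
  have hw0 : 0 < ‖w‖ := hcL.trans_le hw1
  have hw : w ≠ 0 := norm_pos_iff.1 hw0
  have hℓc : (ℓ : ℂ) ≠ 0 := by exact_mod_cast hℓ0.ne'
  have hrc : (r : ℂ) ≠ 0 := by exact_mod_cast hr.ne'
  -- the forms are small
  have hX : ∀ {X F : ℂ}, ‖((r * ℓ ^ 2 : ℝ) : ℂ) * X - F‖ ≤ η * ℓ → ‖F‖ ≤ CF * ℓ →
      ‖X‖ ≤ (CF + 1) / r * (1 / ℓ) := by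
    intro X F hX hF
    have e1 : ‖((r * ℓ ^ 2 : ℝ) : ℂ) * X‖ ≤ (CF + 1) * ℓ := by
      have e2 : ((r * ℓ ^ 2 : ℝ) : ℂ) * X = (((r * ℓ ^ 2 : ℝ) : ℂ) * X - F) + F := by ring
      rw [e2]
      refine (norm_add_le _ _).trans ?_
      have : η * ℓ ≤ 1 * ℓ := mul_le_mul_of_nonneg_right hη1 hℓ0.le
      linarith
    rw [norm_mul, Complex.norm_real, Real.norm_of_nonneg (by positivity)] at e1
    have e3 : (CF + 1) / r * (1 / ℓ) = (CF + 1) * ℓ / (r * ℓ ^ 2) := by field_simp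
    rw [e3, le_div_iff₀ (by positivity)]
    linarith
  have hX1 := hX h1 hF1
  have hX2 := hX h2 hF2
  have hx0 : 0 ≤ (CF + 1) / r * (1 / ℓ) := by positivity
  -- the bound of `Y`
  have hYw : ‖Y‖ * ‖w‖ ≤ r + C * v := by
    have e1 : ‖Y‖ ≤ r / ‖w‖ + C * v := by
      have e2 : Y = (Y - r / w) + r / w := by ring
      rw [e2]
      refine (norm_add_le _ _).trans ?_
      have e3 : ‖(r : ℂ) / w‖ = r / ‖w‖ := by
        rw [norm_div, Complex.norm_real, Real.norm_of_nonneg hr.le]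
      rw [e3]
      linarith
    have e4 := mul_le_mul_of_nonneg_right e1 hw0.le
    have e5 : (r / ‖w‖ + C * v) * ‖w‖ = r + C * v * ‖w‖ := by
      field_simp
    rw [e5] at e4
    have : C * v * ‖w‖ ≤ C * v * 1 := mul_le_mul_of_nonneg_left hw2 (by positivity)
    linarith
  have hrv : r + C * v ≤ (r + C) * v := by nlinarith
  have hYw' : ‖Y‖ * ‖w‖ ≤ (r + C) * v := hYw.trans hrv
  have hp2 : ‖p‖ ≤ 2 * C := by
    have e2 : p = (p - E) + E := by ring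
    rw [e2]
    refine (norm_add_le _ _).trans ?_
    have : C * ‖w‖ ≤ C * 1 := mul_le_mul_of_nonneg_left hw2 hC
    linarith
  -- the quotient
  have hq : 1 / ‖w‖ * (1 / ℓ ^ 2) * (r * (η * ℓ)) ≤ r / (c * θ) * η := by
    have e1 : 1 / ‖w‖ ≤ L / c := by
      rw [div_le_div_iff₀ hw0 hc]
      rw [div_le_iff₀ hL] at hw1
      linarith
    have e2 : r / (c * θ) * η = L / c * (1 / ℓ ^ 2) * (r * (η * ℓ)) := by
      rw [hℓ]
      field_simp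
    rw [e2]
    have : 0 ≤ (1 / ℓ ^ 2) * (r * (η * ℓ)) := by positivity
    nlinarith
  have key : (r * Z * X1 - κ * p * Y * X2) - r * (1 / (w * (ℓ : ℂ) ^ 2) * (F1 - E * F2)) =
      r * (Z - r / w) * X1 + 1 / w * (1 / (ℓ : ℂ) ^ 2) * (r * (((r * ℓ ^ 2 : ℝ) : ℂ) * X1 - F1)) -
      (κ - r) * p * Y * X2 - r * (p - E) * Y * X2 - r * E * (Y - r / w) * X2 -
      E * (1 / w * (1 / (ℓ : ℂ) ^ 2) * (r * (((r * ℓ ^ 2 : ℝ) : ℂ) * X2 - F2))) := by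
    push_cast
    field_simp
    ring
  have n1 : ‖(r : ℂ) * (Z - r / w) * X1‖ ≤ C * (CF + 1) * (v / ℓ) := by
    rw [norm_mul, norm_mul, Complex.norm_real, Real.norm_of_nonneg hr.le]
    have e1 : r * ‖Z - r / w‖ * ‖X1‖ ≤ r * C * ((CF + 1) / r * (1 / ℓ)) := by gcongr
    refine e1.trans ?_
    have e2 : r * C * ((CF + 1) / r * (1 / ℓ)) = C * (CF + 1) * (1 / ℓ) := by field_simp
    rw [e2]
    gcongr
  have n2 : ‖1 / w * (1 / (ℓ : ℂ) ^ 2) * (r * (((r * ℓ ^ 2 : ℝ) : ℂ) * X1 - F1))‖ ≤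
      r / (c * θ) * η := by
    refine le_trans ?_ hq
    rw [norm_mul, norm_mul, norm_mul, norm_div, norm_one, norm_div, norm_one, norm_pow,
      Complex.norm_real, Complex.norm_real, Real.norm_of_nonneg hℓ0.le,
      Real.norm_of_nonneg hr.le]
    gcongr
  have n6 : ‖E * (1 / w * (1 / (ℓ : ℂ) ^ 2) * (r * (((r * ℓ ^ 2 : ℝ) : ℂ) * X2 - F2)))‖ ≤
      C * (r / (c * θ) * η) := by
    rw [norm_mul]
    refine mul_le_mul hE ?_ (norm_nonneg _) hC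
    refine le_trans ?_ hq
    rw [norm_mul, norm_mul, norm_mul, norm_div, norm_one, norm_div, norm_one, norm_pow,
      Complex.norm_real, Complex.norm_real, Real.norm_of_nonneg hℓ0.le,
      Real.norm_of_nonneg hr.le]
    gcongr
  have n3 : ‖(κ - r) * p * Y * X2‖ ≤ 2 * C * C * (r + C) * ((CF + 1) / r) * (v / ℓ) := by
    rw [norm_mul, norm_mul, norm_mul]
    calc ‖κ - r‖ * ‖p‖ * ‖Y‖ * ‖X2‖ ≤ (C * ‖w‖) * (2 * C) * ‖Y‖ * ((CF + 1) / r * (1 / ℓ)) := by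
          gcongr
      _ = 2 * C * C * (‖Y‖ * ‖w‖) * ((CF + 1) / r * (1 / ℓ)) := by ring
      _ ≤ 2 * C * C * ((r + C) * v) * ((CF + 1) / r * (1 / ℓ)) := by gcongr
      _ = 2 * C * C * (r + C) * ((CF + 1) / r) * (v / ℓ) := by ring
  have n4 : ‖(r : ℂ) * (p - E) * Y * X2‖ ≤ r * C * (r + C) * ((CF + 1) / r) * (v / ℓ) := by
    rw [norm_mul, norm_mul, norm_mul, Complex.norm_real, Real.norm_of_nonneg hr.le]
    calc r * ‖p - E‖ * ‖Y‖ * ‖X2‖ ≤ r * (C * ‖w‖) * ‖Y‖ * ((CF + 1) / r * (1 / ℓ)) := by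
          gcongr
      _ = r * C * (‖Y‖ * ‖w‖) * ((CF + 1) / r * (1 / ℓ)) := by ring
      _ ≤ r * C * ((r + C) * v) * ((CF + 1) / r * (1 / ℓ)) := by gcongr
      _ = r * C * (r + C) * ((CF + 1) / r) * (v / ℓ) := by ring
  have n5 : ‖(r : ℂ) * E * (Y - r / w) * X2‖ ≤ r * C * C * ((CF + 1) / r) * (v / ℓ) := by
    rw [norm_mul, norm_mul, norm_mul, Complex.norm_real, Real.norm_of_nonneg hr.le]
    calc r * ‖E‖ * ‖Y - r / w‖ * ‖X2‖ ≤ r * C * (C * v) * ((CF + 1) / r * (1 / ℓ)) := by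
          gcongr
      _ = r * C * C * ((CF + 1) / r) * (v / ℓ) := by ring
  rw [key]
  have t1 := norm_sub_le (r * (Z - r / w) * X1 +
    1 / w * (1 / (ℓ : ℂ) ^ 2) * (r * (((r * ℓ ^ 2 : ℝ) : ℂ) * X1 - F1)) -
      (κ - r) * p * Y * X2 - r * (p - E) * Y * X2 - r * E * (Y - r / w) * X2)
    (E * (1 / w * (1 / (ℓ : ℂ) ^ 2) * (r * (((r * ℓ ^ 2 : ℝ) : ℂ) * X2 - F2))))
  have t2 := norm_sub_le (r * (Z - r / w) * X1 +
    1 / w * (1 / (ℓ : ℂ) ^ 2) * (r * (((r * ℓ ^ 2 : ℝ) : ℂ) * X1 - F1)) -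
      (κ - r) * p * Y * X2 - r * (p - E) * Y * X2) (r * E * (Y - r / w) * X2)
  have t3 := norm_sub_le (r * (Z - r / w) * X1 +
    1 / w * (1 / (ℓ : ℂ) ^ 2) * (r * (((r * ℓ ^ 2 : ℝ) : ℂ) * X1 - F1)) -
      (κ - r) * p * Y * X2) (r * (p - E) * Y * X2)
  have t4 := norm_sub_le (r * (Z - r / w) * X1 +
    1 / w * (1 / (ℓ : ℂ) ^ 2) * (r * (((r * ℓ ^ 2 : ℝ) : ℂ) * X1 - F1)))
    ((κ - r) * p * Y * X2)
  have t5 := norm_add_le (r * (Z - r / w) * X1)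
    (1 / w * (1 / (ℓ : ℂ) ^ 2) * (r * (((r * ℓ ^ 2 : ℝ) : ℂ) * X1 - F1)))
  have e9 : (C * (CF + 1) + (2 * C * C * (r + C) + r * C * (r + C) + r * C * C) * ((CF + 1) / r)) *
        (v / ℓ) + r * (1 + C) / (c * θ) * η = C * (CF + 1) * (v / ℓ) +
      2 * C * C * (r + C) * ((CF + 1) / r) * (v / ℓ) + r * C * (r + C) * ((CF + 1) / r) * (v / ℓ) +
      r * C * C * ((CF + 1) / r) * (v / ℓ) + r / (c * θ) * η + C * (r / (c * θ) * η) := by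
    ring
  rw [e9]
  linarith

end

end Pool.Agent.H33.HC
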