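import Pool.Agent.H33.HC.Defs

/-!
# Targets, part A: the weights and integrals for complex `s` (page H33_CRIT.md in the team store)
-/

set_option autoImplicit false

open NumberField Complex Filter Topology MeasureTheory
open scoped ContDiff nonZeroDivisors

namespace Pool.Agent.H33.HC

open Pool.Agent.H28.RC Pool.Agent.H37.CV Pool.Agent.H33.HH

noncomputable section

/-! ### The weights -/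

/-- GSC: the weight `Gs`. -/
def T_GSC : Prop := ∀ G : ℝ → ℝ, IsG G →
  (∀ s : ℂ, Nr s → ContDiff ℝ ∞ (Gs G s) ∧ (∀ v, v ≤ 1 → Gs G s v = 1) ∧
    (∀ v, 6 ≤ v → Gs G s v = 0) ∧ ∀ t : ℝ, 0 < t →
    IntegrableOn (fun v : ℝ => (v : ℂ) ^ (-s) * Gs G s (v * t)) (Set.Ioi 0) ∧
    ∫ v in Set.Ioi (0 : ℝ), (v : ℂ) ^ (-s) * Gs G s (v * t) = 0) ∧
  ∀ k : ℕ, ∃ C : ℝ, 0 ≤ C ∧ ∀ s : ℂ, Nr s → ∀ v : ℝ, ‖iteratedDeriv k (Gs G s) v‖ ≤ C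

/-- HSC: the cutoff `Hs`. -/
def T_HSC : Prop := ∀ H : ℝ → ℝ, IsH H →
  (∀ s : ℂ, ContDiff ℝ ∞ (Hs H s) ∧ (∀ v, v ≤ 1 / 2 → Hs H s v = 0) ∧
    (∀ v, 2 ≤ v → Hs H s v = (v : ℂ) ^ (-s)) ∧ Hs H s 1 = 1 / 2 ∧
    ∀ (s' : ℂ) (v : ℝ), 0 < v → (v : ℂ) ^ s * Hs H s v + (v : ℂ) ^ (-s') * Hs H s' v⁻¹ = 1) ∧
  ∃ C : ℝ, 0 ≤ C ∧ ∀ s : ℂ, Nr s → ∀ v : ℝ, 0 < v → ‖Hs H s v‖ ≤ C * v ^ (-s.re) ∧
    ‖deriv (Hs H s) v‖ ≤ C * (1 + |s.im|) * v ^ (-s.re - 1)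

/-- the function of the sum over `γ`, rescaled -/
def Fzc (W G H : ℝ → ℝ) (s : ℂ) (R M : ℝ) (z : ℂ) : ℂ :=
  Hs H s (‖1 + R * z‖ ^ 2) * Gs G s (‖1 + R * z‖ ^ 2 * M) * ((w1 W (‖z‖ ^ 2) : ℝ) : ℂ)

/-- GFC: its derivatives are bounded uniformly. -/
def T_GFC : Prop := ∀ W G H : ℝ → ℝ, IsW W → IsG G → IsH H → ∀ k : ℕ, ∃ C : ℝ, 0 ≤ C ∧
  ∀ s : ℂ, Nr s → ∀ R M : ℝ, 0 < R → 0 < M → ContDiff ℝ ∞ (Fzc W G H s R M) ∧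
  (∀ z, 1 < ‖z‖ → Fzc W G H s R M z = 0) ∧ (∀ᶠ z in 𝓝 0, Fzc W G H s R M z = 0) ∧
  ∀ z, ‖iteratedFDeriv ℝ k (Fzc W G H s R M) z‖ ≤ C * (1 + |s.im|) ^ k

/-! ### The integrals over the plane -/

/-- PLC: integrals over the plane. -/
def T_PLC : Prop := ∀ (K : Type) [Field K] [NumberField K] [IQ K] (W G H : ℝ → ℝ), IsW W →
  IsG G → IsH H → ∀ s : ℂ, Nr s → ∀ x t : ℝ, 0 < x → 0 < t →
  Integrable (fun g : ℂ => Hs H s (‖g‖ ^ 2) * Gs G s (‖g‖ ^ 2 * t) *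
    ((Th K W (‖g - 1‖ ^ 2 * x) : ℝ) : ℂ)) ∧
  ∫ g : ℂ, Hs H s (‖g‖ ^ 2) * Gs G s (‖g‖ ^ 2 * t) * ((Th K W (‖g - 1‖ ^ 2 * x) : ℝ) : ℂ) =
    ((Thi K W : ℝ) : ℂ) * Jc G H s t + Kc K W G H s x t

/-- JIC: the function `Jc` is smooth at `0`. -/
def T_JIC : Prop := ∀ G H : ℝ → ℝ, IsG G → IsH H →
  (∀ s : ℂ, Nr s → ContDiff ℝ ∞ (Jx G H s) ∧ (∀ u, 12 ≤ u → Jx G H s u = 0) ∧
    ∀ t, 0 < t → Jc G H s t = Jx G H s t) ∧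
  ∀ k : ℕ, ∃ C : ℝ, 0 ≤ C ∧ ∀ s : ℂ, Nr s → ∀ t : ℝ, ‖iteratedDeriv k (Jx G H s) t‖ ≤ C

/-- JDC: the identity which kills the main terms. -/
def T_JDC : Prop := ∀ G H : ℝ → ℝ, IsG G → IsH H → ∀ (a b : ℝ) (α β : ℂ) (u : ℝ), 0 < a →
  0 < b → Nr (se α u) → Nr (se β (-u)) →
  (a : ℂ) ^ (α - 1) * (b : ℂ) ^ (-α) * (∫ t in Set.Ioi (0 : ℝ), (t : ℂ) ^ (-(α + β)) *
      (Gs G (se β (-u)) t * Jc G H (se α u) (b / a * t))) +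
    (b : ℂ) ^ (β - 1) * (a : ℂ) ^ (-β) * (∫ t in Set.Ioi (0 : ℝ), (t : ℂ) ^ (-(α + β)) *
      (Gs G (se α u) t * Jc G H (se β (-u)) (a / b * t))) = 0

/-- KXC: the factor `Gs` can be taken out. -/
def T_KXC : Prop := ∀ (K : Type) [Field K] [NumberField K] [IQ K] (W G H : ℝ → ℝ), IsW W →
  IsG G → IsH H → ∃ C : ℝ, 0 ≤ C ∧ ∀ s : ℂ, Nr s → ∀ r x t : ℝ, 0 < r → r ≤ 1 → 0 < x → 0 < t →
  t ≤ r * x → ‖Kc K W G H s x t - Gs G s t * K0c K W H s x‖ ≤ C * r ^ (1 / 4 : ℝ) / x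

/-- PSC: the transition function. -/
def T_PSC : Prop := ∀ (K : Type) [Field K] [NumberField K] [IQ K] (W H : ℝ → ℝ), IsW W →
  0 < W1 W → IsH H → ∃ A : ℝ, 0 ≤ A ∧ ∀ s : ℂ, Nr s → ∃ f' : ℝ → ℂ,
  SlC 1 (A * (1 + |s.im|)) (psc K W H s) f'

/-! ### Sums over the ideals -/

/-- IDZ: smooth sums with the factor `N(n)^(-w)`. -/
def T_IDZ : Prop := ∀ (K : Type) [Field K] [NumberField K] [IQ K] (P b C₀ : ℝ),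
  (SP K P).Nonempty → 0 < b → 0 ≤ C₀ → ∃ C : ℝ, 0 ≤ C ∧ ∀ (g : ℝ → ℂ) (M T : ℝ) (w : ℂ),
  ContDiff ℝ ∞ g → (∀ u, b ≤ u → g u = 0) →
  (∀ j ≤ 3, ∀ u ∈ Set.Icc 0 b, ‖iteratedDeriv j g u‖ ≤ M) → 1 ≤ T → ‖w‖ ≤ 1 / 16 →
  ‖w‖ * Real.log T ≤ C₀ →
  ‖sumZ (K := K) P (fun n => ((nm n / T : ℝ) : ℂ) ^ (-w) * g (nm n / T)) -
    ((rk K P * T : ℝ) : ℂ) * ∫ u in Set.Ioi (0 : ℝ), (u : ℂ) ^ (-w) * g u‖ ≤ C * M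

/-- NSC: harmonic sums. -/
def T_NSC : Prop := ∀ (K : Type) [Field K] [NumberField K] [IQ K] (P : ℝ), ∃ C : ℝ, 0 ≤ C ∧
  ∀ (f f' : ℝ → ℂ) (T A : ℝ) (w : ℂ), 1 ≤ T → 0 ≤ A → SlC T A f f' → w ≠ 0 → ‖w‖ ≤ 1 / 16 →
  Summable (fun I : NI K => ‖((nm I.1 : ℝ) : ℂ) ^ (-1 - w) * f (nm I.1)‖) ∧
  ‖sumZ (K := K) P (fun n => ((nm n : ℝ) : ℂ) ^ (-1 - w) * f (nm n)) -
    (Zc K P w - (rk K P : ℂ) * (T : ℂ) ^ (-w) * (1 / w - Lw w (fun v => f (T * v))))‖ ≤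
    C * (1 + A) * T ^ (-(1 / 8) : ℝ)

/-! ### Functions with a transition -/

/-- SPC: products. -/
def T_SPC : Prop := ∀ (f f' g g' : ℝ → ℂ) (T U A B : ℝ), 0 < T → 0 < U → 0 ≤ A → 0 ≤ B →
  SlC T A f f' → SlC U B g g' →
  SlC (min T U) (2 * (1 + A) * (1 + B)) (fun t => f t * g t) (fun t => f' t * g t + f t * g' t)

/-- SSC: rescaling. -/
def T_SSC : Prop := ∀ (f f' : ℝ → ℂ) (T A g : ℝ), 0 < T → 0 < g → 0 ≤ A → SlC T A f f' →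
  SlC (T / g) A (fun t => f (g * t)) (fun t => g * f' (g * t))

/-- SGC: the weight. -/
def T_SGC : Prop := ∀ G : ℝ → ℝ, IsG G → ∃ A : ℝ, 0 ≤ A ∧ ∀ s : ℂ, Nr s →
  SlC 1 A (Gs G s) (deriv (Gs G s))

/-- LWB: the bound of the regularised Mellin transform. -/
def T_LWB : Prop := ∃ C : ℝ, 0 ≤ C ∧ ∀ (f f' : ℝ → ℂ) (A : ℝ) (w : ℂ), 0 ≤ A →
  SlC 1 A f f' → ‖w‖ ≤ 1 / 16 → ‖Lw w f‖ ≤ C * A

/-- LGC: the regularised Mellin transform of a product. -/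
def T_LGC : Prop := ∃ C : ℝ, 0 ≤ C ∧ ∀ (f f' g g' : ℝ → ℂ) (T U A B : ℝ) (w : ℂ), 0 < T →
  T ≤ U → 0 ≤ A → 0 ≤ B → SlC T A f f' → SlC U B g g' → ‖w‖ ≤ 1 / 16 →
  ‖Lw w (fun v => f (T * v) * g (T * v)) - Lw w (fun v => f (T * v))‖ ≤
    C * (1 + A) * (1 + B) * (T / U) ^ (1 / 8 : ℝ)

end

end Pool.Agent.H33.HC
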